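import Mathlib

/-!
# The second numerical index of a real normed space
-/

set_option autoImplicit false

namespace Pool.Agent.H121.SNI

section Defs

variable {X : Type*} [NormedAddCommGroup X] [NormedSpace ℝ X]

/-- the pairs `(x, f)` with `‖x‖ = ‖f‖ = f x = 1` -/
def IsState (x : X) (f : X →L[ℝ] ℝ) : Prop := ‖x‖ = 1 ∧ ‖f‖ = 1 ∧ f x = 1

/-- the numerical radius `v(T) = sup {|f (T x)| : ‖x‖ = ‖f‖ = f x = 1}` -/
noncomputable def numRadius (T : X →L[ℝ] X) : ℝ :=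
  sSup {r : ℝ | ∃ (x : X) (f : X →L[ℝ] ℝ), IsState x f ∧ r = |f (T x)|}

/-- the quotient norm `‖T + Z(X)‖ = inf {‖T + S‖ : v(S) = 0}` -/
noncomputable def quotNorm (T : X →L[ℝ] X) : ℝ :=
  sInf {r : ℝ | ∃ S : X →L[ℝ] X, numRadius S = 0 ∧ r = ‖T + S‖}

variable (X) in
/-- the second numerical index `n'(X) = inf {v(T) : ‖T + Z(X)‖ = 1}` -/
noncomputable def secondIndex : ℝ :=
  sInf {r : ℝ | ∃ T : X →L[ℝ] X, quotNorm T = 1 ∧ r = numRadius T}

end Defs

section Basic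

variable {X : Type*} [NormedAddCommGroup X] [NormedSpace ℝ X]

lemma abs_le_norm (T : X →L[ℝ] X) {x : X} {f : X →L[ℝ] ℝ} (h : IsState x f) :
    |f (T x)| ≤ ‖T‖ := by
  have h1 := f.le_opNorm (T x)
  have h2 := T.le_opNorm x
  rw [h.2.1, one_mul, Real.norm_eq_abs] at h1
  rw [h.1, mul_one] at h2
  exact h1.trans h2

lemma bddAbove_nr (T : X →L[ℝ] X) :
    BddAbove {r : ℝ | ∃ (x : X) (f : X →L[ℝ] ℝ), IsState x f ∧ r = |f (T x)|} := by
  refine ⟨‖T‖, ?_⟩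
  rintro r ⟨x, f, h, rfl⟩
  exact abs_le_norm T h

lemma le_numRadius (T : X →L[ℝ] X) {x : X} {f : X →L[ℝ] ℝ} (h : IsState x f) :
    |f (T x)| ≤ numRadius T :=
  le_csSup (bddAbove_nr T) ⟨x, f, h, rfl⟩

lemma numRadius_nonneg (T : X →L[ℝ] X) : 0 ≤ numRadius T := by
  apply Real.sSup_nonneg
  rintro r ⟨x, f, _, rfl⟩
  exact abs_nonneg _

lemma numRadius_le (T : X →L[ℝ] X) (c : ℝ) (hc : 0 ≤ c)
    (h : ∀ (x : X) (f : X →L[ℝ] ℝ), IsState x f → |f (T x)| ≤ c) : numRadius T ≤ c := by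
  apply Real.sSup_le _ hc
  rintro r ⟨x, f, hx, rfl⟩
  exact h x f hx

lemma numRadius_zero : numRadius (0 : X →L[ℝ] X) = 0 := by
  apply le_antisymm _ (numRadius_nonneg _)
  apply numRadius_le _ _ le_rfl
  intro x f _
  simp

lemma quotNorm_nonempty (T : X →L[ℝ] X) :
    {r : ℝ | ∃ S : X →L[ℝ] X, numRadius S = 0 ∧ r = ‖T + S‖}.Nonempty :=
  ⟨_, 0, numRadius_zero, rfl⟩

lemma quotNorm_le (T S : X →L[ℝ] X) (hS : numRadius S = 0) : quotNorm T ≤ ‖T + S‖ := by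
  refine csInf_le (⟨0, ?_⟩ : BddBelow _) ⟨S, hS, rfl⟩
  rintro r ⟨S, _, rfl⟩
  exact norm_nonneg _

lemma le_quotNorm (T : X →L[ℝ] X) (c : ℝ)
    (h : ∀ S : X →L[ℝ] X, numRadius S = 0 → c ≤ ‖T + S‖) : c ≤ quotNorm T := by
  apply le_csInf (quotNorm_nonempty T)
  rintro r ⟨S, hS, rfl⟩
  exact h S hS

lemma isState_of (x : X) (f : X →L[ℝ] ℝ) (hx : ‖x‖ = 1) (hf : ∀ z, |f z| ≤ ‖z‖) (h : f x = 1) :
    IsState x f := by
  refine ⟨hx, le_antisymm ?_ ?_, h⟩
  · apply f.opNorm_le_bound zero_le_one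
    intro z
    rw [one_mul, Real.norm_eq_abs]
    exact hf z
  · have := f.le_opNorm x
    rw [hx, mul_one, h, norm_one] at this
    exact this

/-- An operator generating a group which is isometric to second order is skew-hermitian. -/
lemma numRadius_eq_zero (S : X →L[ℝ] X) (K : ℝ)
    (h : ∀ (x : X) (t : ℝ), ‖x + t • S x‖ ≤ (1 + K * t ^ 2) * ‖x‖) : numRadius S = 0 := by
  apply le_antisymm _ (numRadius_nonneg _)
  apply numRadius_le _ _ le_rfl
  intro x f hxf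
  have key : ∀ t : ℝ, t * f (S x) ≤ K * t ^ 2 := by
    intro t
    have h1 := h x t
    have h2 := f.le_opNorm (x + t • S x)
    rw [hxf.2.1, one_mul] at h2
    have h3 := (le_abs_self _).trans h2
    rw [map_add, map_smul, hxf.2.2, smul_eq_mul] at h3
    rw [hxf.1, mul_one] at h1
    linarith
  set m := f (S x) with hm
  by_contra hne
  push Not at hne
  have hm0 : m ≠ 0 := abs_pos.mp hne
  have hm2 : 0 < m ^ 2 := by positivity
  set L := |K| + 1 with hL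
  have hL0 : 0 < L := by positivity
  have h1 := key (m / (2 * L))
  have h2 : K ≤ L := by rw [hL]; linarith [le_abs_self K]
  have h3 : m / (2 * L) * m = m ^ 2 / (2 * L) := by ring
  have h4 : K * (m / (2 * L)) ^ 2 ≤ L * (m / (2 * L)) ^ 2 := by gcongr
  have h5 : L * (m / (2 * L)) ^ 2 = m ^ 2 / (4 * L) := by field_simp; ring
  rw [h3] at h1
  have h6 : m ^ 2 / (4 * L) < m ^ 2 / (2 * L) := by
    apply div_lt_div_of_pos_left hm2 (by positivity) (by linarith)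
  linarith

theorem secondIndex_eq (c : ℝ) (L : ∀ T : X →L[ℝ] X, c * quotNorm T ≤ numRadius T)
    (U : ∃ T : X →L[ℝ] X, quotNorm T = 1 ∧ numRadius T ≤ c) : secondIndex X = c := by
  obtain ⟨T, hT1, hT2⟩ := U
  have hT3 : c ≤ numRadius T := by have := L T; rwa [hT1, mul_one] at this
  have hbdd : BddBelow {r : ℝ | ∃ T : X →L[ℝ] X, quotNorm T = 1 ∧ r = numRadius T} := by
    refine ⟨0, ?_⟩
    rintro r ⟨T, _, rfl⟩
    exact numRadius_nonneg T
  have hne : {r : ℝ | ∃ T : X →L[ℝ] X, quotNorm T = 1 ∧ r = numRadius T}.Nonempty :=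
    ⟨_, T, hT1, rfl⟩
  apply le_antisymm
  · exact (csInf_le hbdd ⟨T, hT1, rfl⟩).trans hT2
  · apply le_csInf hne
    rintro r ⟨T', h1, rfl⟩
    have := L T'
    rwa [h1, mul_one] at this

end Basic

end Pool.Agent.H121.SNI
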