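import Pool.Agent.helper121_SNI.HilbertSummand

/-!
# `H ⊕₁ W` for a Hilbert space `H` of dimension at least two
-/

set_option autoImplicit false

namespace Pool.Agent.H121.SNI

section HL

variable {H W : Type*} [NormedAddCommGroup H] [InnerProductSpace ℝ H]
  [NormedAddCommGroup W] [NormedSpace ℝ W]

/-- the point `(h, w)` -/
abbrev mkL (h : H) (w : W) : WithLp 1 (H × W) := WithLp.toLp 1 (h, w)

lemma norm_mkL (h : H) (w : W) : ‖mkL h w‖ = ‖h‖ + ‖w‖ := WithLp.prod_norm_eq_of_L1 _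

/-- the operator on the product -/
noncomputable def lOp0 (e1 e2 : H) (w1 : W) : (H × W) →L[ℝ] (H × W) :=
  (((lam * (1 / 4) : ℝ) • (innerSL ℝ e1).comp (ContinuousLinearMap.fst ℝ H W)).smulRight e1 +
    ((-(7 / 4) * lam : ℝ) • (innerSL ℝ e2).comp (ContinuousLinearMap.fst ℝ H W)).smulRight e2).prod
  (((2 * lam : ℝ) • (innerSL ℝ e1).comp (ContinuousLinearMap.fst ℝ H W)).smulRight w1)

/-- the operator on the `ℓ₁`-sum -/
noncomputable def lOp (e1 e2 : H) (w1 : W) : WithLp 1 (H × W) →L[ℝ] WithLp 1 (H × W) :=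
  ((WithLp.prodContinuousLinearEquiv 1 ℝ H W).symm : (H × W) →L[ℝ] WithLp 1 (H × W)).comp
    ((lOp0 e1 e2 w1).comp
      (WithLp.prodContinuousLinearEquiv 1 ℝ H W : WithLp 1 (H × W) →L[ℝ] (H × W)))

lemma lOp_apply (e1 e2 : H) (w1 : W) (h : H) (w : W) :
    lOp e1 e2 w1 (mkL h w) = mkL ((lam * (1 / 4) * inner ℝ e1 h) • e1 +
      (-(7 / 4) * lam * inner ℝ e2 h) • e2) ((2 * lam * inner ℝ e1 h) • w1) := rfl

lemma lam_eq : lam = 4 * Real.sqrt 21 / 49 := by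
  have hs := s21
  have : lam * (7 * Real.sqrt 21) * Real.sqrt 21 = 12 * Real.sqrt 21 := by rw [lam_mul]
  have h5 : lam * (7 * 21) = 12 * Real.sqrt 21 := by
    linear_combination this - 7 * lam * hs
  linarith

lemma lOp_norm_le (e1 e2 : H) (h1 : ‖e1‖ = 1) (h2 : ‖e2‖ = 1) (h12 : inner ℝ e1 e2 = (0 : ℝ))
    (w1 : W) (hw1 : ‖w1‖ = 1) : ‖lOp e1 e2 w1‖ ≤ 1 := by
  apply ContinuousLinearMap.opNorm_le_bound _ zero_le_one
  intro x
  obtain ⟨h, w, rfl⟩ : ∃ (h : H) (w : W), x = mkL h w := ⟨x.fst, x.snd, rfl⟩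
  rw [lOp_apply, norm_mkL, norm_mkL h w, one_mul, norm_smul, hw1, mul_one]
  have hb := bessel_two e1 e2 h1 h2 h12 h
  have hc := comb_sq e1 e2 h1 h2 h12 (lam * (1 / 4) * inner ℝ e1 h)
    (-(7 / 4) * lam * inner ℝ e2 h)
  have hn := norm_nonneg h
  have hwn := norm_nonneg w
  generalize inner ℝ e1 h = a at *
  generalize inner ℝ e2 h = b at *
  have hlp := lam_pos
  have hs := s21
  have hsp : 0 < Real.sqrt 21 := by positivity
  have h3 : |a| ^ 2 = a ^ 2 := sq_abs _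
  have ha : 0 ≤ |a| := abs_nonneg _
  have ha1 : |a| ≤ ‖h‖ := abs_le_of_sq_le_sq (by nlinarith [sq_nonneg b]) hn
  have hl2 : lam ≤ 1 / 2 := by
    have hl := lam_sq
    by_contra hlt
    push Not at hlt
    nlinarith
  have e1' : ‖2 * lam * a‖ = 2 * lam * |a| := by
    rw [Real.norm_eq_abs, abs_mul, abs_of_pos (by positivity : 0 < 2 * lam)]
  rw [e1']
  have h6 : ‖(lam * (1 / 4) * a) • e1 + (-(7 / 4) * lam * b) • e2‖ ≤ ‖h‖ - 2 * lam * |a| := by
    apply le_of_sq_le_sq _ (by nlinarith)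
    rw [hc]
    have h7 : (‖h‖ - 2 * lam * |a|) ^ 2 =
      ‖h‖ ^ 2 - 4 * lam * |a| * ‖h‖ + 4 * lam ^ 2 * |a| ^ 2 := by ring
    have h8 : (lam * (1 / 4) * a) ^ 2 + (-(7 / 4) * lam * b) ^ 2 =
      lam ^ 2 * (a ^ 2 / 16 + 49 / 16 * b ^ 2) := by ring
    rw [h7, h8, lam_sq, lam_eq]
    nlinarith [sq_nonneg (|a| - Real.sqrt 21 / 6 * ‖h‖)]
  linarith

lemma lOp_le (e1 e2 : H) (h1 : ‖e1‖ = 1) (h2 : ‖e2‖ = 1) (h12 : inner ℝ e1 e2 = (0 : ℝ))
    (w1 : W) (hw1 : ‖w1‖ = 1)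
    (S : WithLp 1 (H × W) →L[ℝ] WithLp 1 (H × W)) (hS : numRadius S = 0) :
    1 ≤ ‖lOp e1 e2 w1 + S‖ := by
  have hz : ∀ (y : H) (ψ : W →L[ℝ] ℝ), ‖y‖ = 1 → ‖ψ‖ ≤ 1 →
      inner ℝ y (S (mkL y 0)).fst + ψ (S (mkL y 0)).snd = (0 : ℝ) := by
    intro y ψ hy hψ
    set f : WithLp 1 (H × W) →L[ℝ] ℝ :=
      ((innerSL ℝ y).comp (ContinuousLinearMap.fst ℝ H W) +
        ψ.comp (ContinuousLinearMap.snd ℝ H W)).comp
        (WithLp.prodContinuousLinearEquiv 1 ℝ H W : WithLp 1 (H × W) →L[ℝ] (H × W)) with hf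
    have hfa : ∀ x, f x = inner ℝ y x.fst + ψ x.snd := fun x => rfl
    have hst : IsState (mkL y (0 : W)) f := by
      apply isState_of
      · rw [norm_mkL, hy, norm_zero, add_zero]
      · intro x
        rw [hfa, WithLp.prod_norm_eq_of_L1]
        refine (abs_add_le _ _).trans ?_
        have g1 := abs_real_inner_le_norm y x.fst
        have g2 := ψ.le_opNorm x.snd
        rw [hy, one_mul] at g1
        rw [Real.norm_eq_abs] at g2
        have g3 : ‖ψ‖ * ‖x.snd‖ ≤ ‖x.snd‖ := mul_le_of_le_one_left (norm_nonneg _) hψ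
        linarith
      · rw [hfa]
        show inner ℝ y y + ψ (0 : W) = (1 : ℝ)
        rw [real_inner_self_eq_norm_sq, hy, map_zero]; norm_num
    have a1 := le_numRadius S hst
    rw [hS, hfa] at a1
    exact abs_nonpos_iff.mp a1
  have hz0 : ∀ y : H, ‖y‖ = 1 → inner ℝ y (S (mkL y 0)).fst = (0 : ℝ) := by
    intro y hy
    have := hz y 0 hy (by simp)
    simpa using this
  have hB : ∀ y : H, ‖y‖ = 1 → (S (mkL y 0)).snd = 0 := by
    intro y hy
    by_contra hne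
    have hn0 : ‖(S (mkL y 0)).snd‖ ≠ 0 := norm_ne_zero_iff.mpr hne
    obtain ⟨ψ, hψ, hψ1⟩ := exists_dual_vector ℝ (S (mkL y 0)).snd hn0
    have := hz y ψ hy hψ.le
    rw [hz0 y hy, zero_add, hψ1] at this
    exact hn0 (by simpa using this)
  set A : H → H := fun y => (S (mkL y 0)).fst with hA
  have hAadd : ∀ (a b : ℝ), A (a • e1 + b • e2) = a • A e1 + b • A e2 := by
    intro a b
    have : mkL (a • e1 + b • e2) (0 : W) = a • mkL e1 0 + b • mkL e2 0 := by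
      have e : a • mkL e1 (0 : W) + b • mkL e2 0 =
        mkL (a • e1 + b • e2) (a • (0 : W) + b • (0 : W)) := rfl
      rw [e, smul_zero, smul_zero, add_zero]
    rw [hA]
    show (S (mkL (a • e1 + b • e2) 0)).fst = _
    rw [this, map_add, map_smul, map_smul]; rfl
  have q1 : inner ℝ e1 (A e1) = (0 : ℝ) := hz0 e1 h1
  have q2 : inner ℝ e2 (A e2) = (0 : ℝ) := hz0 e2 h2
  have hunit : ∀ a b : ℝ, a ^ 2 + b ^ 2 = 1 → ‖a • e1 + b • e2‖ = 1 := by
    intro a b hab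
    have := comb_sq e1 e2 h1 h2 h12 a b
    rw [hab] at this
    exact (pow_eq_one_iff_of_nonneg (norm_nonneg _) two_ne_zero).mp this
  set κ : ℝ := inner ℝ e2 (A e1) with hκ
  have q3 : inner ℝ e1 (A e2) = -κ := by
    have k := hz0 ((3 / 5 : ℝ) • e1 + (4 / 5 : ℝ) • e2) (hunit _ _ (by norm_num))
    change inner ℝ ((3 / 5 : ℝ) • e1 + (4 / 5 : ℝ) • e2)
      (A ((3 / 5 : ℝ) • e1 + (4 / 5 : ℝ) • e2)) = (0 : ℝ) at k
    rw [hAadd] at k
    simp only [inner_add_left, inner_add_right, real_inner_smul_left, real_inner_smul_right,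
      q1, q2] at k
    linarith
  have h15 : Real.sqrt 15 ^ 2 = 15 := Real.sq_sqrt (by norm_num)
  have h21s := s21
  obtain ⟨s, hs1, hs2⟩ : ∃ s : ℝ, s ^ 2 = 1 ∧ κ * s ≤ 0 := by
    rcases le_total 0 κ with h | h
    · exact ⟨-1, by norm_num, by linarith⟩
    · exact ⟨1, by norm_num, by linarith⟩
  have e3 : s ^ 2 * Real.sqrt 15 ^ 2 = 15 := by rw [hs1, h15]; norm_num
  set z : H := (Real.sqrt 21 / 6) • e1 + (s * Real.sqrt 15 / 6) • e2 with hzdef
  have hzn : ‖z‖ = 1 := hunit _ _ (by linear_combination (1 / 36) * e3 + (1 / 36) * h21s)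
  have hx : ‖mkL z (0 : W)‖ = 1 := by rw [norm_mkL, hzn, norm_zero, add_zero]
  have b1 := (lOp e1 e2 w1 + S).le_opNorm (mkL z 0)
  rw [hx, mul_one] at b1
  refine le_trans ?_ b1
  rw [add_apply, lOp_apply, WithLp.prod_norm_eq_of_L1]
  have c1 : inner ℝ e1 z = (Real.sqrt 21 / 6 : ℝ) := by
    rw [hzdef, inner_add_right, real_inner_smul_right, real_inner_smul_right,
      real_inner_self_eq_norm_sq, h1, h12]; norm_num
  have h21 : inner ℝ e2 e1 = (0 : ℝ) := by rw [real_inner_comm]; exact h12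
  have c2 : inner ℝ e2 z = (s * Real.sqrt 15 / 6 : ℝ) := by
    rw [hzdef, inner_add_right, real_inner_smul_right, real_inner_smul_right,
      real_inner_self_eq_norm_sq, h2, h21]; norm_num
  change 1 ≤ ‖((lam * (1 / 4) * inner ℝ e1 z) • e1 + (-(7 / 4) * lam * inner ℝ e2 z) • e2) + A z‖ +
    ‖(2 * lam * inner ℝ e1 z) • w1 + (S (mkL z 0)).snd‖
  rw [hB z hzn, add_zero, norm_smul, hw1, mul_one, c1, c2]
  set v : H := ((lam * (1 / 4) * (Real.sqrt 21 / 6)) • e1 +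
    (-(7 / 4) * lam * (s * Real.sqrt 15 / 6)) • e2) + A z with hv
  have d1 : inner ℝ e1 v = lam * Real.sqrt 21 / 24 - κ * (s * Real.sqrt 15 / 6) := by
    rw [hv, inner_add_right, inner_add_right, real_inner_smul_right, real_inner_smul_right,
      real_inner_self_eq_norm_sq, h1, h12, hzdef, hAadd, inner_add_right,
      real_inner_smul_right, real_inner_smul_right, q1, q3]
    ring
  have d2 : inner ℝ e2 v = κ * Real.sqrt 21 / 6 - lam * 7 / 24 * (s * Real.sqrt 15) := by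
    rw [hv, inner_add_right, inner_add_right, real_inner_smul_right, real_inner_smul_right,
      real_inner_self_eq_norm_sq, h2, h21, hzdef, hAadd, inner_add_right,
      real_inner_smul_right, real_inner_smul_right, q2, ← hκ]
    ring
  have hb := bessel_two e1 e2 h1 h2 h12 v
  rw [d1, d2] at hb
  have h4 : 0 ≤ lam * Real.sqrt 21 * Real.sqrt 15 * (-(κ * s)) :=
    mul_nonneg (mul_nonneg (mul_nonneg lam_pos.le (Real.sqrt_nonneg _)) (Real.sqrt_nonneg _))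
      (by linarith)
  have h5 : (lam * Real.sqrt 21 / 24 - κ * (s * Real.sqrt 15 / 6)) ^ 2 +
      (κ * Real.sqrt 21 / 6 - lam * 7 / 24 * (s * Real.sqrt 15)) ^ 2 =
      (lam * Real.sqrt 21 / 4) ^ 2 + κ ^ 2 -
        1 / 9 * lam * Real.sqrt 21 * Real.sqrt 15 * (κ * s) := by
    linear_combination (49 * lam ^ 2 / 576 + κ ^ 2 / 36) * e3 +
      (κ ^ 2 / 36 - 35 * lam ^ 2 / 576) * h21s
  rw [h5] at hb
  have h6 : lam * Real.sqrt 21 / 4 ≤ ‖v‖ := by
    apply le_of_sq_le_sq _ (norm_nonneg _)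
    nlinarith [sq_nonneg κ]
  have h7 : ‖2 * lam * (Real.sqrt 21 / 6)‖ = lam * Real.sqrt 21 / 3 := by
    have := lam_pos
    rw [Real.norm_eq_abs, abs_of_nonneg (by positivity)]
    ring
  rw [h7]
  have h8 := lam_mul
  linarith

lemma lOp_numRadius [CompleteSpace H] (e1 e2 : H) (h1 : ‖e1‖ = 1) (h2 : ‖e2‖ = 1)
    (h12 : inner ℝ e1 e2 = (0 : ℝ)) (w1 : W) (hw1 : ‖w1‖ = 1) :
    numRadius (lOp e1 e2 w1) ≤ 27 / (7 * Real.sqrt 21) := by
  rw [← lam_nine]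
  apply numRadius_le _ _ (by have := lam_pos; positivity)
  rintro x f ⟨hx, hf, hfx⟩
  obtain ⟨z0, w0, rfl⟩ : ∃ (h : H) (w : W), x = mkL h w := ⟨x.fst, x.snd, rfl⟩
  rw [norm_mkL z0 w0] at hx
  have hfabs : ∀ x, |f x| ≤ ‖x‖ := fun x => by
    have := f.le_opNorm x
    rwa [hf, one_mul] at this
  obtain ⟨p, hp⟩ : ∃ p : H, ∀ h : H, f (mkL h 0) = inner ℝ p h :=
    ⟨(InnerProductSpace.toDual ℝ H).symm (f.comp
      (((WithLp.prodContinuousLinearEquiv 1 ℝ H W).symm : (H × W) →L[ℝ] WithLp 1 (H × W)).comp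
        (ContinuousLinearMap.inl ℝ H W))),
      fun h => by rw [InnerProductSpace.toDual_symm_apply]; rfl⟩
  have hsplit : ∀ (z : H) (w : W), f (mkL z w) = inner ℝ p z + f (mkL 0 w) := by
    intro z w
    rw [← hp, ← map_add]
    have : mkL z (0 : W) + mkL 0 w = mkL (z + 0) (0 + w) := rfl
    rw [this, add_zero, zero_add]
  have hq : ∀ w : W, |f (mkL 0 w)| ≤ ‖w‖ := by
    intro w
    have := hfabs (mkL 0 w)
    rwa [norm_mkL (0 : H) w, norm_zero, zero_add] at this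
  have hpn : ‖p‖ ≤ 1 := by
    by_cases hp0 : p = 0
    · rw [hp0]; simp
    have e0 : 0 < ‖p‖ := norm_pos_iff.mpr hp0
    have e1' := (le_abs_self _).trans (hfabs (mkL p 0))
    rw [hp, norm_mkL p (0 : W), norm_zero, add_zero, real_inner_self_eq_norm_sq] at e1'
    nlinarith
  rw [hsplit] at hfx
  have g2 : f (mkL 0 w0) ≤ ‖w0‖ := (le_abs_self _).trans (hq w0)
  have g1 : inner ℝ p z0 ≤ ‖z0‖ := by
    refine ((le_abs_self _).trans (abs_real_inner_le_norm p z0)).trans ?_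
    exact mul_le_of_le_one_left (norm_nonneg _) hpn
  have g3 : inner ℝ p z0 = ‖z0‖ := by linarith
  have hn := norm_nonneg z0
  have hz1 : ‖z0‖ ≤ 1 := by linarith [norm_nonneg w0]
  have hpz : z0 = ‖z0‖ • p := by
    have e := norm_sub_sq_real z0 (‖z0‖ • p)
    rw [real_inner_smul_right, real_inner_comm, g3, norm_smul, norm_norm] at e
    have e2 : ‖p‖ ^ 2 ≤ 1 := pow_le_one₀ (norm_nonneg _) hpn
    have e3 : ‖z0 - ‖z0‖ • p‖ ^ 2 ≤ 0 := by nlinarith [sq_nonneg ‖z0‖]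
    have e4 : ‖z0 - ‖z0‖ • p‖ = 0 := by
      have := sq_nonneg ‖z0 - ‖z0‖ • p‖
      exact pow_eq_zero_iff two_ne_zero |>.mp (le_antisymm e3 this)
    exact sub_eq_zero.mp (norm_eq_zero.mp e4)
  set u : ℝ := f (mkL 0 w1) with hudef
  have hu : |u| ≤ 1 := by have := hq w1; rwa [hw1] at this
  have hfw : ∀ c : ℝ, f (mkL 0 (c • w1)) = c * u := by
    intro c
    have : mkL (0 : H) (c • w1) = c • mkL 0 w1 := by
      have e : c • mkL (0 : H) w1 = mkL (c • (0 : H)) (c • w1) := rfl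
      rw [e, smul_zero]
    rw [this, map_smul, smul_eq_mul]
  rw [lOp_apply, hsplit, hfw, inner_add_right, real_inner_smul_right, real_inner_smul_right]
  have a1 : inner ℝ e1 z0 = ‖z0‖ * inner ℝ e1 p := by
    conv_lhs => rw [hpz]
    rw [real_inner_smul_right]
  have a2 : inner ℝ e2 z0 = ‖z0‖ * inner ℝ e2 p := by
    conv_lhs => rw [hpz]
    rw [real_inner_smul_right]
  have hb := bessel_two e1 e2 h1 h2 h12 p
  have hb2 : ‖p‖ ^ 2 ≤ 1 := pow_le_one₀ (norm_nonneg _) hpn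
  have h6 := core2 (inner ℝ e1 p) (inner ℝ e2 p) u (hb.trans hb2) hu
  have h5 : lam * (1 / 4) * inner ℝ e1 z0 * inner ℝ p e1 +
      -(7 / 4) * lam * inner ℝ e2 z0 * inner ℝ p e2 + 2 * lam * inner ℝ e1 z0 * u =
      ‖z0‖ * lam * ((1 / 4 * inner ℝ e1 p + 2 * u) * inner ℝ e1 p -
        7 / 4 * inner ℝ e2 p * inner ℝ e2 p) := by
    rw [a1, a2, real_inner_comm e1 p, real_inner_comm e2 p]
    ring
  rw [h5, abs_mul, abs_mul, abs_of_nonneg hn, abs_of_pos lam_pos]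
  have h7 := lam_pos
  calc ‖z0‖ * lam * |(1 / 4 * inner ℝ e1 p + 2 * u) * inner ℝ e1 p -
        7 / 4 * inner ℝ e2 p * inner ℝ e2 p|
      ≤ 1 * lam * (9 / 4) := by gcongr
    _ = lam * (9 / 4) := by ring

theorem secondIndex_hilbert_lsummand [CompleteSpace H] [Nontrivial W] (e1 e2 : H)
    (h1 : ‖e1‖ = 1) (h2 : ‖e2‖ = 1) (h12 : inner ℝ e1 e2 = (0 : ℝ)) :
    secondIndex (WithLp 1 (H × W)) ≤ 27 / (7 * Real.sqrt 21) := by
  obtain ⟨w0, hw0⟩ := exists_ne (0 : W)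
  have hn : 0 < ‖w0‖ := norm_pos_iff.mpr hw0
  set w1 : W := ‖w0‖⁻¹ • w0 with hw1
  have hw1n : ‖w1‖ = 1 := by rw [hw1, norm_smul, norm_inv, norm_norm, inv_mul_cancel₀ hn.ne']
  have hq : quotNorm (lOp e1 e2 w1) = 1 := by
    apply le_antisymm
    · have := quotNorm_le (lOp e1 e2 w1) 0 numRadius_zero
      rw [add_zero] at this
      exact this.trans (lOp_norm_le e1 e2 h1 h2 h12 w1 hw1n)
    · exact le_quotNorm _ _ (lOp_le e1 e2 h1 h2 h12 w1 hw1n)
  have hbdd : BddBelow {r : ℝ | ∃ T : WithLp 1 (H × W) →L[ℝ] WithLp 1 (H × W), quotNorm T = 1 ∧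
      r = numRadius T} := by
    refine ⟨0, ?_⟩
    rintro r ⟨T, _, rfl⟩
    exact numRadius_nonneg T
  exact (csInf_le hbdd ⟨lOp e1 e2 w1, hq, rfl⟩).trans (lOp_numRadius e1 e2 h1 h2 h12 w1 hw1n)

end HL

end Pool.Agent.H121.SNI
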