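import Pool.Agent.helper121_SNI.LInfU

/-!
# `H ⊕_∞ W` for a Hilbert space `H` of dimension at least two
-/

set_option autoImplicit false

namespace Pool.Agent.H121.SNI

section HS

variable {H W : Type*} [NormedAddCommGroup H] [InnerProductSpace ℝ H]
  [NormedAddCommGroup W] [NormedSpace ℝ W]

/-- the first row `(h, w) ↦ λ ((⟨e₁,h⟩/4 + 2 φ(w)) e₁ - (7/4) ⟨e₂,h⟩ e₂)` -/
noncomputable def hRow (e1 e2 : H) (φ : W →L[ℝ] ℝ) : (H × W) →L[ℝ] H :=
  (lam • ((1 / 4 : ℝ) • (innerSL ℝ e1).comp (ContinuousLinearMap.fst ℝ H W) +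
    (2 : ℝ) • φ.comp (ContinuousLinearMap.snd ℝ H W))).smulRight e1 +
  ((-(7 / 4) * lam : ℝ) • (innerSL ℝ e2).comp (ContinuousLinearMap.fst ℝ H W)).smulRight e2

/-- the operator -/
noncomputable def hOp (e1 e2 : H) (φ : W →L[ℝ] ℝ) : (H × W) →L[ℝ] (H × W) :=
  (hRow e1 e2 φ).prod 0

lemma hRow_apply (e1 e2 : H) (φ : W →L[ℝ] ℝ) (h : H) (w : W) :
    hRow e1 e2 φ (h, w) = (lam * (1 / 4 * inner ℝ e1 h + 2 * φ w)) • e1 +
      (-(7 / 4) * lam * inner ℝ e2 h) • e2 := rfl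

lemma hOp_apply (e1 e2 : H) (φ : W →L[ℝ] ℝ) (x : H × W) :
    hOp e1 e2 φ x = (hRow e1 e2 φ x, 0) := rfl

lemma comb_sq (e1 e2 : H) (h1 : ‖e1‖ = 1) (h2 : ‖e2‖ = 1) (h12 : inner ℝ e1 e2 = (0 : ℝ))
    (a b : ℝ) : ‖a • e1 + b • e2‖ ^ 2 = a ^ 2 + b ^ 2 := by
  rw [norm_add_sq_real, norm_smul, norm_smul, h1, h2, real_inner_smul_left,
    real_inner_smul_right, h12]
  simp

lemma bessel_two (e1 e2 : H) (h1 : ‖e1‖ = 1) (h2 : ‖e2‖ = 1) (h12 : inner ℝ e1 e2 = (0 : ℝ))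
    (h : H) : (inner ℝ e1 h) ^ 2 + (inner ℝ e2 h) ^ 2 ≤ ‖h‖ ^ 2 := by
  have e := norm_sub_sq_real h (inner ℝ e1 h • e1 + inner ℝ e2 h • e2)
  rw [comb_sq e1 e2 h1 h2 h12, inner_add_right, real_inner_smul_right, real_inner_smul_right,
    real_inner_comm e1 h, real_inner_comm e2 h] at e
  have := sq_nonneg ‖h - (inner ℝ e1 h • e1 + inner ℝ e2 h • e2)‖
  nlinarith

lemma core2 (a b u : ℝ) (h : a ^ 2 + b ^ 2 ≤ 1) (hu : |u| ≤ 1) :
    |(1 / 4 * a + 2 * u) * a - 7 / 4 * b * b| ≤ 9 / 4 := by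
  have ha : |a| ≤ 1 := by rw [abs_le_one_iff_mul_self_le_one]; nlinarith [sq_nonneg b]
  have h1 : |u * a| ≤ |a| := by
    rw [abs_mul]; exact mul_le_of_le_one_left (abs_nonneg _) hu
  have h2 := abs_le.mp h1
  have h3 : |a| ^ 2 = a ^ 2 := sq_abs a
  have h4 : 0 ≤ |a| := abs_nonneg a
  rw [abs_le]
  constructor
  · nlinarith [sq_nonneg (|a| - 1 / 2), sq_nonneg b]
  · nlinarith [sq_nonneg b]

lemma hOp_norm_le (e1 e2 : H) (h1 : ‖e1‖ = 1) (h2 : ‖e2‖ = 1) (h12 : inner ℝ e1 e2 = (0 : ℝ))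
    (φ : W →L[ℝ] ℝ) (hφ : ‖φ‖ = 1) : ‖hOp e1 e2 φ‖ ≤ 1 := by
  apply ContinuousLinearMap.opNorm_le_of_unit_norm zero_le_one
  rintro ⟨h, w⟩ hhw
  have hh : ‖h‖ ≤ 1 := by rw [← hhw]; exact norm_fst_le (h, w)
  have hw : ‖w‖ ≤ 1 := by rw [← hhw]; exact norm_snd_le (h, w)
  have hu : |φ w| ≤ 1 := by
    have := φ.le_opNorm w
    rw [hφ, one_mul, Real.norm_eq_abs] at this
    exact this.trans hw
  rw [hOp_apply, Prod.norm_mk, norm_zero]
  apply max_le _ zero_le_one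
  rw [hRow_apply]
  apply le_of_sq_le_sq _ zero_le_one
  rw [comb_sq e1 e2 h1 h2 h12]
  have hb := bessel_two e1 e2 h1 h2 h12 h
  have hb2 : ‖h‖ ^ 2 ≤ 1 := pow_le_one₀ (norm_nonneg _) hh
  generalize inner ℝ e1 h = a at *
  generalize inner ℝ e2 h = b at *
  generalize φ w = u at *
  have h3 : (1 / 4 * a + 2 * u) ^ 2 ≤ (|a| / 4 + 2) ^ 2 := by
    rw [sq_le_sq]
    have h4 := abs_add_le (1 / 4 * a) (2 * u)
    have h5 : |1 / 4 * a| = |a| / 4 := by rw [abs_mul]; norm_num; ring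
    have h6 : |2 * u| = 2 * |u| := by rw [abs_mul]; norm_num
    rw [abs_of_nonneg (by positivity : 0 ≤ |a| / 4 + 2)]
    linarith
  have h7 : |a| ^ 2 = a ^ 2 := sq_abs _
  have h8 : (lam * (1 / 4 * a + 2 * u)) ^ 2 + (-(7 / 4) * lam * b) ^ 2 =
      lam ^ 2 * ((1 / 4 * a + 2 * u) ^ 2 + 49 / 16 * b ^ 2) := by ring
  rw [h8, lam_sq]
  nlinarith [sq_nonneg (|a| - 1 / 6)]

lemma hOp_le (e1 e2 : H) (h1 : ‖e1‖ = 1) (h2 : ‖e2‖ = 1) (h12 : inner ℝ e1 e2 = (0 : ℝ))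
    (φ : W →L[ℝ] ℝ) (w1 : W) (hw1 : ‖w1‖ = 1) (hφ1 : φ w1 = 1)
    (S : (H × W) →L[ℝ] (H × W)) (hS : numRadius S = 0) : 1 ≤ ‖hOp e1 e2 φ + S‖ := by
  have hz : ∀ (y : H) (w : W), ‖y‖ = 1 → ‖w‖ ≤ 1 → inner ℝ y (S (y, w)).1 = (0 : ℝ) := by
    intro y w hy hw
    have hst : IsState (y, w) ((innerSL ℝ y).comp (ContinuousLinearMap.fst ℝ H W)) := by
      apply isState_of
      · rw [Prod.norm_mk, hy]; exact max_eq_left hw
      · rintro ⟨z1, z2⟩
        show |inner ℝ y z1| ≤ _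
        refine (abs_real_inner_le_norm y z1).trans ?_
        rw [hy, one_mul]; exact norm_fst_le (z1, z2)
      · show inner ℝ y y = (1 : ℝ)
        rw [real_inner_self_eq_norm_sq, hy]; norm_num
    have a1 := le_numRadius S hst
    rw [hS] at a1
    exact abs_nonpos_iff.mp a1
  have hsplit : ∀ (z : H) (w : W), S (z, w) = S (z, 0) + S (0, w) := by
    intro z w; rw [← map_add]; simp
  have hB : ∀ y : H, ‖y‖ = 1 → inner ℝ y (S (0, w1)).1 = (0 : ℝ) := by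
    intro y hy
    have k1 := hz y w1 hy hw1.le
    rw [hsplit] at k1
    change inner ℝ y ((S (y, 0)).1 + (S (0, w1)).1) = (0 : ℝ) at k1
    rw [inner_add_right, hz y 0 hy (by simp), zero_add] at k1
    exact k1
  set A : H → H := fun y => (S (y, 0)).1 with hA
  have hAadd : ∀ (a b : ℝ), A (a • e1 + b • e2) = a • A e1 + b • A e2 := by
    intro a b
    have : ((a • e1 + b • e2, 0) : H × W) = a • (e1, 0) + b • (e2, 0) := by simp
    rw [hA]
    show (S (a • e1 + b • e2, 0)).1 = _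
    rw [this, map_add, map_smul, map_smul]; rfl
  have q1 : inner ℝ e1 (A e1) = (0 : ℝ) := hz e1 0 h1 (by simp)
  have q2 : inner ℝ e2 (A e2) = (0 : ℝ) := hz e2 0 h2 (by simp)
  have h35 : Real.sqrt 35 ^ 2 = 35 := Real.sq_sqrt (by norm_num)
  have hunit : ∀ a b : ℝ, a ^ 2 + b ^ 2 = 1 → ‖a • e1 + b • e2‖ = 1 := by
    intro a b hab
    have := comb_sq e1 e2 h1 h2 h12 a b
    rw [hab] at this
    exact (pow_eq_one_iff_of_nonneg (norm_nonneg _) two_ne_zero).mp this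
  set κ : ℝ := inner ℝ e2 (A e1) with hκ
  have q3 : inner ℝ e1 (A e2) = -κ := by
    have k := hz ((3 / 5 : ℝ) • e1 + (4 / 5 : ℝ) • e2) 0 (hunit _ _ (by norm_num)) (by simp)
    change inner ℝ ((3 / 5 : ℝ) • e1 + (4 / 5 : ℝ) • e2)
      (A ((3 / 5 : ℝ) • e1 + (4 / 5 : ℝ) • e2)) = (0 : ℝ) at k
    rw [hAadd] at k
    simp only [inner_add_left, inner_add_right, real_inner_smul_left, real_inner_smul_right,
      q1, q2] at k
    linarith
  obtain ⟨s, hs1, hs2⟩ : ∃ s : ℝ, s ^ 2 = 1 ∧ κ * s ≤ 0 := by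
    rcases le_total 0 κ with h | h
    · exact ⟨-1, by norm_num, by linarith⟩
    · exact ⟨1, by norm_num, by linarith⟩
  have e3 : s ^ 2 * Real.sqrt 35 ^ 2 = 35 := by rw [hs1, h35]; norm_num
  set z : H := (1 / 6 : ℝ) • e1 + (s * Real.sqrt 35 / 6) • e2 with hzdef
  have hzn : ‖z‖ = 1 := hunit _ _ (by linear_combination (1 / 36) * e3)
  have hx : ‖((z, w1) : H × W)‖ = 1 := by rw [Prod.norm_mk, hzn, hw1]; simp
  have b1 := (hOp e1 e2 φ + S).le_opNorm (z, w1)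
  rw [hx, mul_one] at b1
  refine le_trans ?_ b1
  refine le_trans ?_ (norm_fst_le _)
  set v : H := ((hOp e1 e2 φ + S) (z, w1)).1 with hv
  have hv2 : v = hRow e1 e2 φ (z, w1) + (A z + (S (0, w1)).1) := by
    rw [hv, add_apply, hsplit]; rfl
  have c1 : inner ℝ e1 z = (1 / 6 : ℝ) := by
    rw [hzdef, inner_add_right, real_inner_smul_right, real_inner_smul_right,
      real_inner_self_eq_norm_sq, h1, h12]; norm_num
  have h21 : inner ℝ e2 e1 = (0 : ℝ) := by rw [real_inner_comm]; exact h12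
  have c2 : inner ℝ e2 z = (s * Real.sqrt 35 / 6 : ℝ) := by
    rw [hzdef, inner_add_right, real_inner_smul_right, real_inner_smul_right,
      real_inner_self_eq_norm_sq, h2, h21]; norm_num
  have d1 : inner ℝ e1 v = lam * 49 / 24 - κ * (s * Real.sqrt 35 / 6) := by
    rw [hv2, inner_add_right, inner_add_right, hB e1 h1, hRow_apply, c1, c2, hφ1,
      inner_add_right, real_inner_smul_right, real_inner_smul_right,
      real_inner_self_eq_norm_sq, h1, h12, hzdef, hAadd, inner_add_right,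
      real_inner_smul_right, real_inner_smul_right, q1, q3]
    ring
  have d2 : inner ℝ e2 v = κ / 6 - lam * 7 / 24 * (s * Real.sqrt 35) := by
    rw [hv2, inner_add_right, inner_add_right, hB e2 h2, hRow_apply, c1, c2, hφ1,
      inner_add_right, real_inner_smul_right, real_inner_smul_right,
      real_inner_self_eq_norm_sq, h2, h21, hzdef, hAadd, inner_add_right,
      real_inner_smul_right, real_inner_smul_right, q2, ← hκ]
    ring
  have hb := bessel_two e1 e2 h1 h2 h12 v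
  rw [d1, d2] at hb
  have h4 : 0 ≤ lam * Real.sqrt 35 * (-(κ * s)) :=
    mul_nonneg (mul_nonneg lam_pos.le (Real.sqrt_nonneg _)) (by linarith)
  have h5 : (lam * 49 / 24 - κ * (s * Real.sqrt 35 / 6)) ^ 2 +
      (κ / 6 - lam * 7 / 24 * (s * Real.sqrt 35)) ^ 2 =
      1 + κ ^ 2 - 7 / 9 * lam * Real.sqrt 35 * (κ * s) := by
    linear_combination (lam ^ 2 * 49 / 576 + κ ^ 2 / 36) * e3 + (4116 / 576) * lam_sq
  rw [h5] at hb
  apply le_of_sq_le_sq _ (norm_nonneg _)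
  nlinarith [sq_nonneg κ]

lemma hOp_numRadius [CompleteSpace H] (e1 e2 : H) (h1 : ‖e1‖ = 1) (h2 : ‖e2‖ = 1)
    (h12 : inner ℝ e1 e2 = (0 : ℝ)) (φ : W →L[ℝ] ℝ) (hφ : ‖φ‖ = 1) :
    numRadius (hOp e1 e2 φ) ≤ 27 / (7 * Real.sqrt 21) := by
  rw [← lam_nine]
  apply numRadius_le _ _ (by have := lam_pos; positivity)
  rintro ⟨z0, w0⟩ f ⟨hx, hf, hfx⟩
  have hz0 : ‖z0‖ ≤ 1 := by rw [← hx]; exact norm_fst_le (z0, w0)
  have hw0 : ‖w0‖ ≤ 1 := by rw [← hx]; exact norm_snd_le (z0, w0)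
  have hu : |φ w0| ≤ 1 := by
    have := φ.le_opNorm w0
    rw [hφ, one_mul, Real.norm_eq_abs] at this
    exact this.trans hw0
  have hfle : ∀ x, f x ≤ ‖x‖ := fun x => by
    have := f.le_opNorm x
    rw [hf, one_mul] at this
    exact (le_abs_self _).trans this
  obtain ⟨p, hp⟩ : ∃ p : H, ∀ h : H, f (h, 0) = inner ℝ p h :=
    ⟨(InnerProductSpace.toDual ℝ H).symm (f.comp (ContinuousLinearMap.inl ℝ H W)),
      fun h => by rw [InnerProductSpace.toDual_symm_apply]; rfl⟩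
  have hsplit : ∀ (z : H) (w : W), f (z, w) = f (z, 0) + f (0, w) := by
    intro z w; rw [← map_add]; simp
  rw [hOp_apply, hp]
  by_cases hp0 : p = 0
  · rw [hp0, inner_zero_left, abs_zero]; have := lam_pos; positivity
  have hpn : 0 < ‖p‖ := norm_pos_iff.mpr hp0
  set v : H := ‖p‖⁻¹ • p with hv
  have hvn : ‖v‖ = 1 := by rw [hv, norm_smul, norm_inv, norm_norm, inv_mul_cancel₀ hpn.ne']
  have hcpv : inner ℝ p v = ‖p‖ := by
    rw [hv, real_inner_smul_right, real_inner_self_eq_norm_sq]; field_simp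
  have b1 : ‖p‖ ≤ inner ℝ p z0 := by
    have e1 := hfle (v, w0)
    rw [hsplit, hp, hcpv, Prod.norm_mk, hvn, max_eq_left hw0] at e1
    rw [hsplit, hp] at hfx
    linarith
  have hp1 : ‖p‖ ≤ 1 := by
    have e1 := hfle (v, 0)
    rw [hp, hcpv, Prod.norm_mk, hvn] at e1
    simpa using e1
  have hpz : p = ‖p‖ • z0 := by
    have e := norm_sub_sq_real p (‖p‖ • z0)
    rw [real_inner_smul_right, norm_smul, norm_norm] at e
    have e2 : ‖z0‖ ^ 2 ≤ 1 := pow_le_one₀ (norm_nonneg _) hz0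
    have e3 : ‖p - ‖p‖ • z0‖ ^ 2 ≤ 0 := by nlinarith [sq_nonneg ‖p‖]
    have e4 : ‖p - ‖p‖ • z0‖ = 0 := by
      have := sq_nonneg ‖p - ‖p‖ • z0‖
      exact pow_eq_zero_iff two_ne_zero |>.mp (le_antisymm e3 this)
    exact sub_eq_zero.mp (norm_eq_zero.mp e4)
  have hb := bessel_two e1 e2 h1 h2 h12 z0
  have hb2 : ‖z0‖ ^ 2 ≤ 1 := pow_le_one₀ (norm_nonneg _) hz0
  have h5 : inner ℝ p (hRow e1 e2 φ (z0, w0)) = ‖p‖ * lam *
      ((1 / 4 * inner ℝ e1 z0 + 2 * φ w0) * inner ℝ e1 z0 -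
        7 / 4 * inner ℝ e2 z0 * inner ℝ e2 z0) := by
    rw [hRow_apply]
    conv_lhs => rw [hpz]
    rw [real_inner_smul_left, inner_add_right, real_inner_smul_right, real_inner_smul_right,
      real_inner_comm e1 z0, real_inner_comm e2 z0]
    ring
  show |inner ℝ p (hRow e1 e2 φ (z0, w0))| ≤ _
  rw [h5, abs_mul, abs_mul, abs_of_pos hpn, abs_of_pos lam_pos]
  have h6 := core2 (inner ℝ e1 z0) (inner ℝ e2 z0) (φ w0) (hb.trans hb2) hu
  have h7 := lam_pos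
  calc ‖p‖ * lam * |(1 / 4 * inner ℝ e1 z0 + 2 * φ w0) * inner ℝ e1 z0 -
        7 / 4 * inner ℝ e2 z0 * inner ℝ e2 z0|
      ≤ 1 * lam * (9 / 4) := by gcongr
    _ = lam * (9 / 4) := by ring

theorem secondIndex_hilbert_summand [CompleteSpace H] [Nontrivial W] (e1 e2 : H)
    (h1 : ‖e1‖ = 1) (h2 : ‖e2‖ = 1) (h12 : inner ℝ e1 e2 = (0 : ℝ)) :
    secondIndex (H × W) ≤ 27 / (7 * Real.sqrt 21) := by
  obtain ⟨w0, hw0⟩ := exists_ne (0 : W)
  have hn : 0 < ‖w0‖ := norm_pos_iff.mpr hw0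
  set w1 : W := ‖w0‖⁻¹ • w0 with hw1
  have hw1n : ‖w1‖ = 1 := by rw [hw1, norm_smul, norm_inv, norm_norm, inv_mul_cancel₀ hn.ne']
  obtain ⟨φ, hφ, hφ1⟩ := exists_dual_vector ℝ w1 (by rw [hw1n]; norm_num)
  have hφ1' : φ w1 = 1 := by rw [hφ1, hw1n]; simp
  have hq : quotNorm (hOp e1 e2 φ) = 1 := by
    apply le_antisymm
    · have := quotNorm_le (hOp e1 e2 φ) 0 numRadius_zero
      rw [add_zero] at this
      exact this.trans (hOp_norm_le e1 e2 h1 h2 h12 φ hφ)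
    · exact le_quotNorm _ _ (hOp_le e1 e2 h1 h2 h12 φ w1 hw1n hφ1')
  have hbdd : BddBelow {r : ℝ | ∃ T : (H × W) →L[ℝ] (H × W), quotNorm T = 1 ∧
      r = numRadius T} := by
    refine ⟨0, ?_⟩
    rintro r ⟨T, _, rfl⟩
    exact numRadius_nonneg T
  exact (csInf_le hbdd ⟨hOp e1 e2 φ, hq, rfl⟩).trans (hOp_numRadius e1 e2 h1 h2 h12 φ hφ)

lemma value_lt_one : 27 / (7 * Real.sqrt 21) < 1 := by
  have h := s21
  have h0 : 0 < Real.sqrt 21 := by positivity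
  rw [div_lt_one (by positivity)]
  by_contra hlt
  push Not at hlt
  nlinarith

end HS

end Pool.Agent.H121.SNI
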