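import Mathlib

set_option autoImplicit false

namespace Pool.Agent.H121.SNI

open ComplexConjugate

/-- The extremal constant `7 √21 / 27`. -/
noncomputable def cst : ℝ := 7 * Real.sqrt 21 / 27

lemma cst_pos : 0 < cst := by unfold cst; positivity

lemma weight_le (c : ℝ) (hc : 0 ≤ c) : c * (7 - 4 * c ^ 2) / 3 ≤ cst := by
  unfold cst
  have h21 : Real.sqrt 21 ^ 2 = 21 := Real.sq_sqrt (by norm_num)
  have h0 : 0 ≤ Real.sqrt 21 := Real.sqrt_nonneg _
  set r := Real.sqrt 21 with hr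
  have h1 : 0 ≤ (c - r / 6) ^ 2 * (4 * c + 8 * (r / 6)) := by positivity
  have h2 : (c - r / 6) ^ 2 * (4 * c + 8 * (r / 6)) =
      4 * c ^ 3 - 12 * (r ^ 2 / 36) * c + 8 * (r ^ 2 / 216) * r := by ring
  rw [h2, h21] at h1
  nlinarith [h1]

/-- trisection of the angle -/
lemma trisect (p : ℂ) (hp : ‖p‖ = 1) (hre : p.re ≤ 0) :
    ∃ q : ℂ, ‖q‖ = 1 ∧ q ^ 3 = p ∧ 1 / 2 ≤ q.re ∧ 1 / 4 ≤ q.im ^ 2 := by
  set θ := Complex.arg p with hθ
  have hpe : p = Complex.exp (θ * Complex.I) := by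
    have := Complex.norm_mul_exp_arg_mul_I p
    rw [hp] at this
    simpa using this.symm
  have hpi := Real.pi_pos
  have hub : |θ| ≤ Real.pi := Complex.abs_arg_le_pi p
  have hcos : p.re = Real.cos θ := by
    rw [hpe, Complex.exp_ofReal_mul_I_re]
  have hlb : Real.pi / 2 ≤ |θ| := by
    by_contra hlt
    push Not at hlt
    have := Real.cos_pos_of_mem_Ioo (x := θ) ⟨by linarith [(abs_lt.mp hlt).1], (abs_lt.mp hlt).2⟩
    rw [← hcos] at this
    linarith
  refine ⟨Complex.exp ((θ / 3 : ℝ) * Complex.I), Complex.norm_exp_ofReal_mul_I _, ?_, ?_, ?_⟩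
  · rw [← Complex.exp_nat_mul, hpe]
    congr 1
    push_cast
    ring
  · rw [Complex.exp_ofReal_mul_I_re]
    rw [← Real.cos_abs, ← Real.cos_pi_div_three]
    apply Real.cos_le_cos_of_nonneg_of_le_pi (abs_nonneg _) (by linarith)
    rw [abs_div]
    have : |(3 : ℝ)| = 3 := by norm_num
    rw [this]
    linarith
  · rw [Complex.exp_ofReal_mul_I_im]
    have h1 : 1 / 2 ≤ Real.sin |θ / 3| := by
      rw [← Real.sin_pi_div_six]
      have h3 : |θ / 3| = |θ| / 3 := by rw [abs_div]; norm_num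
      rw [h3]
      apply Real.sin_le_sin_of_le_of_le_pi_div_two <;> linarith
    have h2 : Real.sin (θ / 3) ^ 2 = Real.sin |θ / 3| ^ 2 := by
      rcases abs_choice (θ / 3) with h | h <;> rw [h]
      rw [Real.sin_neg]; ring
    rw [h2]
    nlinarith

/-- the quadratic form `⟨y, A y⟩` of the symmetric real-linear map `A z = α z + γ conj z`. -/
def qf (α : ℝ) (γ y : ℂ) : ℝ := α * Complex.normSq y + (conj γ * y ^ 2).re

lemma key_identity (α : ℝ) (γ b E q : ℂ) (hE : Complex.normSq E = 1)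
    (hq : Complex.normSq q = 1) (r : ℝ) (hr : r ^ 2 = 3) (w1 w2 w3 : ℝ)
    (h1 : w1 = q.re * (4 * q.re ^ 2 - 1) / 3)
    (h2 : w2 = (8 / 3 * q.re * q.im ^ 2 + 2 * r / 3 * q.im) / 2)
    (h3 : w3 = (8 / 3 * q.re * q.im ^ 2 - 2 * r / 3 * q.im) / 2)
    (ρ σ : ℂ) (hρ : ρ = ⟨1 / 2, r / 2⟩) (hσ : σ = ⟨1 / 2, -(r / 2)⟩) :
    (conj (E * conj q ^ 2) * (α * (E * q) + γ * conj (E * q))).re =
      w1 * qf α γ E - w2 * qf α γ (E * ρ) - w3 * qf α γ (E * σ) ∧
    (conj b * (E * q)).re =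
      w1 * (conj b * E).re + w2 * (conj b * (E * ρ)).re + w3 * (conj b * (E * σ)).re := by
  have hs : q.im ^ 2 = 1 - q.re ^ 2 := by
    rw [Complex.normSq_apply] at hq
    nlinarith
  have hQ : q = w1 + w2 * ρ + w3 * σ := by
    apply Complex.ext
    · simp only [hρ, hσ, Complex.add_re, Complex.mul_re, Complex.ofReal_re, Complex.ofReal_im]
      rw [h1, h2, h3, hs]; ring
    · simp only [hρ, hσ, Complex.add_im, Complex.mul_im, Complex.ofReal_re, Complex.ofReal_im]
      rw [h2, h3]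
      linear_combination (-(q.im) / 3) * hr
  have hQ2 : conj q = w1 - w2 * ρ ^ 2 - w3 * σ ^ 2 := by
    apply Complex.ext
    · simp only [hρ, hσ, pow_two, Complex.sub_re, Complex.mul_re, Complex.mul_im,
        Complex.ofReal_re, Complex.ofReal_im, Complex.conj_re]
      rw [h1, h2, h3]
      simp only [pow_two] at hs hr
      linear_combination (-(4 / 3) * q.re) * hs + (-(2 / 3) * q.re * q.im * q.im) * hr
    · simp only [hρ, hσ, pow_two, Complex.sub_im, Complex.mul_re, Complex.mul_im,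
        Complex.ofReal_re, Complex.ofReal_im, Complex.conj_im]
      rw [h2, h3]
      linear_combination (q.im / 3) * hr
  have hre : (q ^ 3).re = w1 - w2 - w3 := by
    have : (q ^ 3).re = q.re ^ 3 - 3 * q.re * q.im ^ 2 := by
      simp only [pow_succ, pow_zero, one_mul, Complex.mul_re, Complex.mul_im]
      ring
    rw [this, h1, h2, h3, hs]; ring
  have nρ : Complex.normSq ρ = 1 := by
    rw [hρ, Complex.normSq_mk]; linear_combination (1 / 4) * hr
  have nσ : Complex.normSq σ = 1 := by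
    rw [hσ, Complex.normSq_mk]; linear_combination (1 / 4) * hr
  have hEc : conj E * E = 1 := by
    rw [mul_comm, Complex.mul_conj, hE]; simp
  have hqc : conj q * q = 1 := by
    rw [mul_comm, Complex.mul_conj, hq]; simp
  constructor
  · have e1 : conj (E * conj q ^ 2) * (α * (E * q) + γ * conj (E * q)) =
        α * q ^ 3 * (conj E * E) + γ * (conj E) ^ 2 * q * (conj q * q) := by
      simp only [map_mul, map_pow, Complex.conj_conj]
      ring
    rw [e1, hEc, hqc, mul_one, mul_one, Complex.add_re, Complex.re_ofReal_mul, hre]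
    have e2 : (γ * (conj E) ^ 2 * q).re = (conj γ * E ^ 2 * conj q).re := by
      rw [← Complex.conj_re (γ * (conj E) ^ 2 * q)]
      simp only [map_mul, map_pow, Complex.conj_conj]
    have e3 : conj γ * E ^ 2 * conj q = w1 * (conj γ * E ^ 2) - w2 * (conj γ * (E * ρ) ^ 2) -
        w3 * (conj γ * (E * σ) ^ 2) := by
      rw [hQ2]; ring
    rw [e2, e3, Complex.sub_re, Complex.sub_re, Complex.re_ofReal_mul, Complex.re_ofReal_mul,
      Complex.re_ofReal_mul]
    unfold qf
    rw [Complex.normSq_mul, Complex.normSq_mul, hE, nρ, nσ]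
    ring
  · have e1 : conj b * (E * q) = w1 * (conj b * E) + w2 * (conj b * (E * ρ)) +
        w3 * (conj b * (E * σ)) := by
      conv_lhs => rw [hQ]
      ring
    rw [e1, Complex.add_re, Complex.add_re, Complex.re_ofReal_mul, Complex.re_ofReal_mul,
      Complex.re_ofReal_mul]

/-- The planar inequality: `|A x| + |⟨b, x⟩| ≤ (7 √21 / 27) max_y (|⟨y, A y⟩| + |⟨b, y⟩|)` for
symmetric `A` and unit vectors. -/
theorem planar (α : ℝ) (γ b : ℂ) (V : ℝ)
    (hV : ∀ y : ℂ, ‖y‖ = 1 → |qf α γ y| + |(conj b * y).re| ≤ V) (x : ℂ) (hx : ‖x‖ = 1) :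
    ‖α * x + γ * conj x‖ + |(conj b * x).re| ≤ cst * V := by
  have hV0 : 0 ≤ V := le_trans (by positivity) (hV x hx)
  -- the case of a general unit vector `u` with `Re (conj u x) ≤ 0`
  have main : ∀ u : ℂ, ‖u‖ = 1 → (conj u * x).re ≤ 0 →
      |(conj u * (α * x + γ * conj x)).re| + |(conj b * x).re| ≤ cst * V := by
    intro u hu hux
    obtain ⟨q, hq1, hq3, hqre, hqim⟩ := trisect (conj u * x)
      (by rw [norm_mul, Complex.norm_conj, hu, hx, one_mul]) hux
    have hqn : Complex.normSq q = 1 := by rw [Complex.normSq_eq_norm_sq, hq1]; norm_num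
    have hqc : conj q * q = 1 := by rw [mul_comm, Complex.mul_conj, hqn]; simp
    have hux' : conj u * u = 1 := by
      rw [mul_comm, Complex.mul_conj, Complex.normSq_eq_norm_sq, hu]; simp
    have hxx : conj x * x = 1 := by
      rw [mul_comm, Complex.mul_conj, Complex.normSq_eq_norm_sq, hx]; simp
    set E : ℂ := x * conj q with hEdef
    have hE : Complex.normSq E = 1 := by
      rw [Complex.normSq_eq_norm_sq, hEdef, norm_mul, Complex.norm_conj, hx, hq1]; norm_num
    have hEx : E * q = x := by rw [hEdef, mul_assoc, hqc, mul_one]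
    have hEu : E * conj q ^ 2 = u := by
      have h1 : conj q ^ 3 = u * conj x := by
        rw [← map_pow, hq3, map_mul, Complex.conj_conj]
      have h2 : E * conj q ^ 2 = x * conj q ^ 3 := by rw [hEdef]; ring
      rw [h2, h1]
      linear_combination u * hxx
    have hsq : Real.sqrt 3 ^ 2 = 3 := Real.sq_sqrt (by norm_num)
    have hs : q.im ^ 2 = 1 - q.re ^ 2 := by
      rw [Complex.normSq_apply] at hqn
      nlinarith
    obtain ⟨k1, k2⟩ := key_identity α γ b E q hE hqn (Real.sqrt 3) hsq _ _ _ rfl rfl rfl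
      _ _ rfl rfl
    rw [hEx, hEu] at k1
    rw [hEx] at k2
    set w1 : ℝ := q.re * (4 * q.re ^ 2 - 1) / 3 with hw1
    set w2 : ℝ := (8 / 3 * q.re * q.im ^ 2 + 2 * Real.sqrt 3 / 3 * q.im) / 2 with hw2
    set w3 : ℝ := (8 / 3 * q.re * q.im ^ 2 - 2 * Real.sqrt 3 / 3 * q.im) / 2 with hw3
    have hr0 : 0 ≤ Real.sqrt 3 := Real.sqrt_nonneg 3
    have p1 : 0 ≤ w1 := by
      rw [hw1]
      have : 0 ≤ 4 * q.re ^ 2 - 1 := by nlinarith
      have : 0 ≤ q.re := by linarith
      positivity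
    -- `σ² ≥ τ²`
    have hst : |2 * Real.sqrt 3 / 3 * q.im| ≤ 8 / 3 * q.re * q.im ^ 2 := by
      apply abs_le_of_sq_le_sq
      · have h1 : (2 * Real.sqrt 3 / 3 * q.im) ^ 2 = 4 / 3 * q.im ^ 2 := by
          linear_combination (4 / 9 * q.im ^ 2) * hsq
        rw [h1]
        have h2 : (8 / 3 * q.re * q.im ^ 2) ^ 2 =
            64 / 9 * (q.re ^ 2 * q.im ^ 2) * q.im ^ 2 := by ring
        rw [h2]
        have h3 : 3 / 16 ≤ q.re ^ 2 * q.im ^ 2 := by
          have : q.re ^ 2 = 1 - q.im ^ 2 := by linarith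
          rw [this]
          have h4 : q.im ^ 2 ≤ 3 / 4 := by nlinarith
          nlinarith [mul_nonneg (sub_nonneg.mpr hqim) (sub_nonneg.mpr h4)]
        nlinarith [sq_nonneg q.im]
      · have : 0 ≤ q.re := by linarith
        positivity
    have p2 : 0 ≤ w2 := by rw [hw2]; linarith [(abs_le.mp hst).1]
    have p3 : 0 ≤ w3 := by rw [hw3]; linarith [(abs_le.mp hst).2]
    have hsum : w1 + w2 + w3 ≤ cst := by
      have h1 : w1 + w2 + w3 = q.re * (7 - 4 * q.re ^ 2) / 3 := by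
        rw [hw1, hw2, hw3, hs]; ring
      rw [h1]
      exact weight_le _ (by linarith)
    have nE : ‖E‖ = 1 := by
      rw [hEdef, norm_mul, Complex.norm_conj, hx, hq1]; norm_num
    have nρ : ‖(⟨1 / 2, Real.sqrt 3 / 2⟩ : ℂ)‖ = 1 := by
      have : Complex.normSq (⟨1 / 2, Real.sqrt 3 / 2⟩ : ℂ) = 1 := by
        rw [Complex.normSq_mk]; linear_combination (1 / 4) * hsq
      rw [Complex.normSq_eq_norm_sq] at this
      exact (pow_eq_one_iff_of_nonneg (norm_nonneg _) two_ne_zero).mp this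
    have nσ : ‖(⟨1 / 2, -(Real.sqrt 3 / 2)⟩ : ℂ)‖ = 1 := by
      have : Complex.normSq (⟨1 / 2, -(Real.sqrt 3 / 2)⟩ : ℂ) = 1 := by
        rw [Complex.normSq_mk]; linear_combination (1 / 4) * hsq
      rw [Complex.normSq_eq_norm_sq] at this
      exact (pow_eq_one_iff_of_nonneg (norm_nonneg _) two_ne_zero).mp this
    have v1 := hV E nE
    have v2 := hV (E * ⟨1 / 2, Real.sqrt 3 / 2⟩) (by rw [norm_mul, nE, nρ, one_mul])
    have v3 := hV (E * ⟨1 / 2, -(Real.sqrt 3 / 2)⟩) (by rw [norm_mul, nE, nσ, one_mul])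
    rw [k1, k2]
    generalize qf α γ E = a1 at *
    generalize qf α γ (E * ⟨1 / 2, Real.sqrt 3 / 2⟩) = a2 at *
    generalize qf α γ (E * ⟨1 / 2, -(Real.sqrt 3 / 2)⟩) = a3 at *
    generalize (conj b * E).re = b1 at *
    generalize (conj b * (E * ⟨1 / 2, Real.sqrt 3 / 2⟩)).re = b2 at *
    generalize (conj b * (E * ⟨1 / 2, -(Real.sqrt 3 / 2)⟩)).re = b3 at *
    have t1 : |w1 * a1 - w2 * a2 - w3 * a3| ≤ w1 * |a1| + w2 * |a2| + w3 * |a3| := by
      calc |w1 * a1 - w2 * a2 - w3 * a3| ≤ |w1 * a1 - w2 * a2| + |w3 * a3| := abs_sub _ _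
        _ ≤ |w1 * a1| + |w2 * a2| + |w3 * a3| := by gcongr; exact abs_sub _ _
        _ = _ := by rw [abs_mul, abs_mul, abs_mul, abs_of_nonneg p1, abs_of_nonneg p2,
                  abs_of_nonneg p3]
    have t2 : |w1 * b1 + w2 * b2 + w3 * b3| ≤ w1 * |b1| + w2 * |b2| + w3 * |b3| := by
      calc |w1 * b1 + w2 * b2 + w3 * b3| ≤ |w1 * b1 + w2 * b2| + |w3 * b3| := abs_add_le _ _
        _ ≤ |w1 * b1| + |w2 * b2| + |w3 * b3| := by gcongr; exact abs_add_le _ _
        _ = _ := by rw [abs_mul, abs_mul, abs_mul, abs_of_nonneg p1, abs_of_nonneg p2,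
                  abs_of_nonneg p3]
    calc |w1 * a1 - w2 * a2 - w3 * a3| + |w1 * b1 + w2 * b2 + w3 * b3|
        ≤ (w1 * |a1| + w2 * |a2| + w3 * |a3|) + (w1 * |b1| + w2 * |b2| + w3 * |b3|) :=
          add_le_add t1 t2
      _ = w1 * (|a1| + |b1|) + w2 * (|a2| + |b2|) + w3 * (|a3| + |b3|) := by ring
      _ ≤ w1 * V + w2 * V + w3 * V := by gcongr
      _ = (w1 + w2 + w3) * V := by ring
      _ ≤ cst * V := by gcongr
  set D := α * x + γ * conj x with hD
  by_cases h0 : D = 0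
  · have := main (-x) (by rw [norm_neg, hx]) (by
      have hxx : conj x * x = 1 := by
        rw [mul_comm, Complex.mul_conj, Complex.normSq_eq_norm_sq, hx]; simp
      rw [map_neg, neg_mul, hxx]; norm_num)
    rw [h0, mul_zero, Complex.zero_re, abs_zero] at this
    rw [h0, norm_zero]
    exact this
  · have hn : ‖D‖ ≠ 0 := norm_ne_zero_iff.mpr h0
    set u0 : ℂ := D / ‖D‖ with hu0
    have hu0n : ‖u0‖ = 1 := by
      rw [hu0, norm_div, Complex.norm_real, norm_norm, div_self hn]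
    have hu0D : (conj u0 * D).re = ‖D‖ := by
      have h1 : conj u0 * D = ((‖D‖ : ℝ) : ℂ) := by
        rw [hu0, map_div₀, Complex.conj_ofReal, div_mul_eq_mul_div, mul_comm, Complex.mul_conj,
          Complex.normSq_eq_norm_sq]
        have : ((‖D‖ : ℝ) : ℂ) ≠ 0 := by exact_mod_cast hn
        push_cast
        field_simp
      rw [h1, Complex.ofReal_re]
    rcases le_total (conj u0 * x).re 0 with h | h
    · have := main u0 hu0n h
      rwa [hu0D, abs_of_nonneg (norm_nonneg _)] at this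
    · have := main (-u0) (by rw [norm_neg, hu0n]) (by
        rw [map_neg, neg_mul, Complex.neg_re]; linarith)
      rw [map_neg, neg_mul, Complex.neg_re, abs_neg, hu0D, abs_of_nonneg (norm_nonneg _)] at this
      exact this

end Pool.Agent.H121.SNI
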