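import Pool.Agent.helper121_SNI.K

/-!
# Rows and columns
-/

set_option autoImplicit false

namespace Pool.Agent.H121.SNI

open ComplexConjugate

/-- the decomposition `A z = α z + i κ z + γ conj z` of a real-linear map of `ℂ` -/
lemma exists_coeff (A : ℂ →L[ℝ] ℂ) : ∃ (α κ : ℝ) (γ : ℂ), ∀ z : ℂ,
    A z = α * z + κ * Complex.I * z + γ * conj z := by
  refine ⟨((A 1 - Complex.I * A Complex.I) / 2).re, ((A 1 - Complex.I * A Complex.I) / 2).im,
    (A 1 + Complex.I * A Complex.I) / 2, fun z => ?_⟩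
  have h1 : A z = z.re * A 1 + z.im * A Complex.I := by
    conv_lhs => rw [← Complex.re_add_im z]
    have e1 : (z.re : ℂ) = z.re • (1 : ℂ) := by simp
    have e2 : (z.im : ℂ) * Complex.I = z.im • Complex.I := by simp
    rw [map_add, e2, e1, map_smul, map_smul, Complex.real_smul, Complex.real_smul]
    simp
  have h2 : ((((A 1 - Complex.I * A Complex.I) / 2).re : ℝ) : ℂ) * z +
      (((A 1 - Complex.I * A Complex.I) / 2).im : ℝ) * Complex.I * z =
      (A 1 - Complex.I * A Complex.I) / 2 * z := by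
    conv_rhs => rw [← Complex.re_add_im ((A 1 - Complex.I * A Complex.I) / 2)]
    ring
  rw [h2, h1]
  have hz : z = z.re + z.im * Complex.I := (Complex.re_add_im z).symm
  have hc : conj z = z.re - z.im * Complex.I := by
    apply Complex.ext <;> simp
  linear_combination (-((A 1 - Complex.I * A Complex.I) / 2)) * hz -
    ((A 1 + Complex.I * A Complex.I) / 2) * hc + ((z.im : ℂ) * A Complex.I) * Complex.I_sq

lemma qf_eq (α κ : ℝ) (γ y : ℂ) (hy : ‖y‖ = 1) :
    (conj y * (α * y + κ * Complex.I * y + γ * conj y)).re = qf α γ y := by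
  have hyy : conj y * y = 1 := by
    rw [mul_comm, Complex.mul_conj, Complex.normSq_eq_norm_sq, hy]; simp
  have h1 : conj y * (α * y + κ * Complex.I * y + γ * conj y) =
      α * (conj y * y) + κ * Complex.I * (conj y * y) + γ * conj y ^ 2 := by ring
  rw [h1, hyy]
  unfold qf
  rw [Complex.normSq_eq_norm_sq, hy]
  have h2 : (γ * conj y ^ 2).re = (conj γ * y ^ 2).re := by
    rw [← Complex.conj_re (γ * conj y ^ 2)]
    simp only [map_mul, map_pow, Complex.conj_conj]
  simp [h2]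

/-- the row estimate, for the `ℓ∞`-sum -/
theorem row_bound (A B : ℂ →L[ℝ] ℂ) (V : ℝ)
    (h : ∀ y w : ℂ, ‖y‖ = 1 → ‖w‖ ≤ 1 → |(conj y * A y).re| + |(conj y * B w).re| ≤ V) :
    ∃ κ : ℝ, ∀ z w : ℂ, ‖z‖ ≤ 1 → ‖w‖ ≤ 1 →
      ‖A z + κ * Complex.I * z + B w‖ ≤ cst * V := by
  obtain ⟨α, κ, γ, hA⟩ := exists_coeff A
  have hV0 : 0 ≤ V := le_trans (by positivity) (h 1 0 (by simp) (by simp))
  refine ⟨-κ, fun z w hz hw => ?_⟩
  set ζ := A z + ((-κ : ℝ) : ℂ) * Complex.I * z + B w with hζ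
  have hζ' : ζ = α * z + γ * conj z + B w := by
    rw [hζ, hA z]; push_cast; ring
  by_cases h0 : ζ = 0
  · rw [h0, norm_zero]; exact mul_nonneg cst_pos.le hV0
  have hn : ‖ζ‖ ≠ 0 := norm_ne_zero_iff.mpr h0
  set x : ℂ := ζ / ‖ζ‖ with hx
  have hxn : ‖x‖ = 1 := by rw [hx, norm_div, Complex.norm_real, norm_norm, div_self hn]
  have hxζ : (conj x * ζ).re = ‖ζ‖ := by
    have h1 : conj x * ζ = ((‖ζ‖ : ℝ) : ℂ) := by
      rw [hx, map_div₀, Complex.conj_ofReal, div_mul_eq_mul_div, mul_comm, Complex.mul_conj,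
        Complex.normSq_eq_norm_sq]
      have : ((‖ζ‖ : ℝ) : ℂ) ≠ 0 := by exact_mod_cast hn
      push_cast
      field_simp
    rw [h1, Complex.ofReal_re]
  have hpl := planar α γ (B w) V (fun y hy => by
    have h1 := h y w hy hw
    rw [hA y, qf_eq α κ γ y hy] at h1
    have h2 : (conj (B w) * y).re = (conj y * B w).re := by
      rw [← Complex.conj_re (conj (B w) * y)]
      simp only [map_mul, Complex.conj_conj, mul_comm]
    rw [h2]; exact h1) x hxn
  have e1 : (conj x * ζ).re = (conj (α * x + γ * conj x) * z).re + (conj x * B w).re := by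
    rw [hζ', mul_add, Complex.add_re]
    congr 1
    have e2 : conj x * (α * z + γ * conj z) = conj x * α * z + conj x * γ * conj z := by ring
    have e3 : conj (α * x + γ * conj x) * z = conj x * α * z + conj γ * x * z := by
      simp only [map_add, map_mul, Complex.conj_conj, Complex.conj_ofReal]; ring
    rw [e2, e3, Complex.add_re, Complex.add_re]
    congr 1
    rw [← Complex.conj_re (conj x * γ * conj z)]
    simp only [map_mul, Complex.conj_conj]
    rw [mul_comm x (conj γ)]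
  have e4 : (conj (α * x + γ * conj x) * z).re ≤ ‖α * x + γ * conj x‖ := by
    calc (conj (α * x + γ * conj x) * z).re ≤ ‖conj (α * x + γ * conj x) * z‖ :=
          Complex.re_le_norm _
      _ = ‖α * x + γ * conj x‖ * ‖z‖ := by rw [norm_mul, Complex.norm_conj]
      _ ≤ ‖α * x + γ * conj x‖ * 1 := by gcongr
      _ = _ := mul_one _
  have e5 : (conj x * B w).re ≤ |(conj (B w) * x).re| := by
    have h2 : (conj (B w) * x).re = (conj x * B w).re := by
      rw [← Complex.conj_re (conj (B w) * x)]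
      simp only [map_mul, Complex.conj_conj, mul_comm]
    rw [h2]; exact le_abs_self _
  rw [← hxζ, e1]
  linarith

/-- the column estimate, for the `ℓ₁`-sum -/
theorem col_bound (A B : ℂ →L[ℝ] ℂ) (V : ℝ)
    (h : ∀ z q : ℂ, ‖z‖ = 1 → ‖q‖ ≤ 1 → |(conj z * A z).re| + |(conj q * B z).re| ≤ V) :
    ∃ κ : ℝ, ∀ z : ℂ, ‖z‖ = 1 → ‖A z + κ * Complex.I * z‖ + ‖B z‖ ≤ cst * V := by
  obtain ⟨α, κ, γ, hA⟩ := exists_coeff A
  refine ⟨-κ, fun x hx => ?_⟩
  have hAx : A x + ((-κ : ℝ) : ℂ) * Complex.I * x = α * x + γ * conj x := by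
    rw [hA x]; push_cast; ring
  obtain ⟨q, hq, hqB⟩ : ∃ q : ℂ, ‖q‖ ≤ 1 ∧ (conj q * B x).re = ‖B x‖ := by
    by_cases h0 : B x = 0
    · exact ⟨0, by simp, by simp [h0]⟩
    · have hn : ‖B x‖ ≠ 0 := norm_ne_zero_iff.mpr h0
      refine ⟨B x / ‖B x‖, ?_, ?_⟩
      · rw [norm_div, Complex.norm_real, norm_norm, div_self hn]
      · have h1 : conj (B x / ‖B x‖) * B x = ((‖B x‖ : ℝ) : ℂ) := by
          rw [map_div₀, Complex.conj_ofReal, div_mul_eq_mul_div, mul_comm, Complex.mul_conj,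
            Complex.normSq_eq_norm_sq]
          have : ((‖B x‖ : ℝ) : ℂ) ≠ 0 := by exact_mod_cast hn
          push_cast
          field_simp
        rw [h1, Complex.ofReal_re]
  set b : ℂ := ⟨(conj q * B 1).re, (conj q * B Complex.I).re⟩ with hb
  have hbB : ∀ y : ℂ, (conj b * y).re = (conj q * B y).re := by
    intro y
    have h1 : B y = y.re • B 1 + y.im • B Complex.I := by
      conv_lhs => rw [← Complex.re_add_im y]
      have e1 : (y.re : ℂ) = y.re • (1 : ℂ) := by simp
      have e2 : (y.im : ℂ) * Complex.I = y.im • Complex.I := by simp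
      rw [map_add, e2, e1, map_smul, map_smul]
    rw [h1, mul_add, Complex.add_re, Complex.real_smul, Complex.real_smul]
    have e3 : conj q * (y.re * B 1) = y.re * (conj q * B 1) := by ring
    have e4 : conj q * (y.im * B Complex.I) = y.im * (conj q * B Complex.I) := by ring
    rw [e3, e4, Complex.re_ofReal_mul, Complex.re_ofReal_mul]
    simp only [hb, Complex.mul_re, Complex.conj_re, Complex.conj_im]
    ring
  have hpl := planar α γ b V (fun y hy => by
    have h1 := h y q hy hq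
    rw [hA y, qf_eq α κ γ y hy] at h1
    rw [hbB y]; exact h1) x hx
  rw [hAx]
  rw [hbB x, hqB, abs_of_nonneg (norm_nonneg _)] at hpl
  exact hpl

/-- an operator with vanishing form is `i κ` -/
lemma skew_of (A : ℂ →L[ℝ] ℂ) (h : ∀ y : ℂ, ‖y‖ = 1 → (conj y * A y).re = 0) :
    ∃ κ : ℝ, ∀ z : ℂ, A z = κ * Complex.I * z := by
  obtain ⟨α, κ, γ, hA⟩ := exists_coeff A
  have hq : ∀ y : ℂ, ‖y‖ = 1 → qf α γ y = 0 := fun y hy => by
    rw [← qf_eq α κ γ y hy, ← hA y]; exact h y hy
  have h1 := hq 1 (by simp)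
  have h2 := hq Complex.I (by simp)
  have hs : Real.sqrt 2 ^ 2 = 2 := Real.sq_sqrt (by norm_num)
  have hn : ‖(⟨Real.sqrt 2 / 2, Real.sqrt 2 / 2⟩ : ℂ)‖ = 1 := by
    have : Complex.normSq (⟨Real.sqrt 2 / 2, Real.sqrt 2 / 2⟩ : ℂ) = 1 := by
      rw [Complex.normSq_mk]; linear_combination (1 / 2) * hs
    rw [Complex.normSq_eq_norm_sq] at this
    exact (pow_eq_one_iff_of_nonneg (norm_nonneg _) two_ne_zero).mp this
  have h3 := hq _ hn
  unfold qf at h1 h2 h3
  simp [pow_two] at h1 h2 h3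
  obtain ⟨g, k⟩ := γ
  simp at h1 h2 h3
  have hα : α = 0 := by linarith
  have hg : g = 0 := by linarith
  have hk : k = 0 := by
    subst hα hg
    nlinarith [h3, hs]
  refine ⟨κ, fun z => ?_⟩
  rw [hA z, hα, hg, hk]
  have : (⟨0, 0⟩ : ℂ) = 0 := rfl
  rw [this]
  push_cast
  ring

end Pool.Agent.H121.SNI
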