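import Pool.Agent.helper121_SNI.Basics
import Pool.Agent.helper121_SNI.Rows

/-!
# `ℂ ⊕_∞ ℂ`
-/

set_option autoImplicit false

namespace Pool.Agent.H121.SNI

open ComplexConjugate

/-- `z ↦ Re (conj y z)` -/
noncomputable def pair (y : ℂ) : ℂ →L[ℝ] ℝ :=
  Complex.reCLM.comp (ContinuousLinearMap.mul ℝ ℂ (conj y))

lemma pair_apply (y z : ℂ) : pair y z = (conj y * z).re := rfl

lemma abs_pair_le (y z : ℂ) : |(conj y * z).re| ≤ ‖y‖ * ‖z‖ := by
  calc |(conj y * z).re| ≤ ‖conj y * z‖ := Complex.abs_re_le_norm _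
    _ = ‖y‖ * ‖z‖ := by rw [norm_mul, Complex.norm_conj]

lemma conj_mul_self_re (y : ℂ) (hy : ‖y‖ = 1) : (conj y * y).re = 1 := by
  rw [mul_comm, Complex.mul_conj, Complex.normSq_eq_norm_sq, hy]; simp

lemma abs_add_abs_le (a b V : ℝ) (h1 : |a + b| ≤ V) (h2 : |a - b| ≤ V) : |a| + |b| ≤ V := by
  rw [abs_le] at h1 h2
  rcases abs_cases a with ⟨e1, _⟩ | ⟨e1, _⟩ <;> rcases abs_cases b with ⟨e2, _⟩ | ⟨e2, _⟩ <;>
    rw [e1, e2] <;> linarith [h1.1, h1.2, h2.1, h2.2]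

lemma rot_le (κ t : ℝ) (z : ℂ) :
    ‖z + t • (κ * Complex.I * z)‖ ≤ (1 + κ ^ 2 * t ^ 2) * ‖z‖ := by
  have h1 : z + t • (κ * Complex.I * z) = (1 + ((t * κ : ℝ) : ℂ) * Complex.I) * z := by
    rw [Complex.real_smul]; push_cast; ring
  rw [h1, norm_mul]
  gcongr
  have h2 : ‖(1 + ((t * κ : ℝ) : ℂ) * Complex.I)‖ ^ 2 = 1 + (t * κ) ^ 2 := by
    rw [← Complex.normSq_eq_norm_sq, Complex.normSq_apply]; simp; ring
  have h3 : 0 ≤ ‖(1 + ((t * κ : ℝ) : ℂ) * Complex.I)‖ := norm_nonneg _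
  apply le_of_sq_le_sq _ (by positivity)
  rw [h2]
  nlinarith [sq_nonneg (t * κ), sq_nonneg ((t * κ) ^ 2)]

lemma core (c s u : ℝ) (h : c ^ 2 + s ^ 2 = 1) (hu : |u| ≤ 1) :
    |-(3 / 4) + c ^ 2 - s ^ 2 + 2 * u * c| ≤ 9 / 4 := by
  have hc : |c| ≤ 1 := by rw [abs_le_one_iff_mul_self_le_one]; nlinarith [sq_nonneg s]
  have h1 : |u * c| ≤ |c| := by
    rw [abs_mul]; exact mul_le_of_le_one_left (abs_nonneg _) hu
  have h2 := (abs_le.mp h1)
  have h3 : |c| ^ 2 = c ^ 2 := sq_abs c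
  have h4 : 0 ≤ |c| := abs_nonneg c
  have h5 : s ^ 2 = 1 - c ^ 2 := by linarith
  rw [abs_le, h5]
  constructor
  · nlinarith [sq_nonneg (|c| - 1 / 2)]
  · nlinarith [mul_nonneg h4 (sub_nonneg.mpr hc)]

/-- lower bound for the `ℓ∞`-sum -/
theorem lInf_lower (T : (ℂ × ℂ) →L[ℝ] (ℂ × ℂ)) :
    27 / (7 * Real.sqrt 21) * quotNorm T ≤ numRadius T := by
  set V := numRadius T with hV
  have hst1 : ∀ y w : ℂ, ‖y‖ = 1 → ‖w‖ ≤ 1 →
      IsState (y, w) ((pair y).comp (ContinuousLinearMap.fst ℝ ℂ ℂ)) := by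
    intro y w hy hw
    apply isState_of
    · rw [Prod.norm_mk, hy]; exact max_eq_left hw
    · rintro ⟨z1, z2⟩
      show |(conj y * z1).re| ≤ _
      refine (abs_pair_le y z1).trans ?_
      rw [hy, one_mul]; exact norm_fst_le (z1, z2)
    · exact conj_mul_self_re y hy
  have hst2 : ∀ y w : ℂ, ‖y‖ = 1 → ‖w‖ ≤ 1 →
      IsState (w, y) ((pair y).comp (ContinuousLinearMap.snd ℝ ℂ ℂ)) := by
    intro y w hy hw
    apply isState_of
    · rw [Prod.norm_mk, hy]; exact max_eq_right hw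
    · rintro ⟨z1, z2⟩
      show |(conj y * z2).re| ≤ _
      refine (abs_pair_le y z2).trans ?_
      rw [hy, one_mul]; exact norm_snd_le (z1, z2)
    · exact conj_mul_self_re y hy
  have hsplit : ∀ z w : ℂ, T (z, w) = T (z, 0) + T (0, w) := by
    intro z w; rw [← map_add]; simp
  have hneg : ∀ w : ℂ, T (0, -w) = -T (0, w) := by
    intro w; rw [← map_neg]; simp
  have hneg' : ∀ w : ℂ, T (-w, 0) = -T (w, 0) := by
    intro w; rw [← map_neg]; simp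
  have r1 : ∀ y w : ℂ, ‖y‖ = 1 → ‖w‖ ≤ 1 →
      |(conj y * (T (y, 0)).1).re| + |(conj y * (T (0, w)).1).re| ≤ V := by
    intro y w hy hw
    have a1 := le_numRadius T (hst1 y w hy hw)
    have a2 := le_numRadius T (hst1 y (-w) hy (by rwa [norm_neg]))
    rw [hsplit] at a1 a2
    rw [hneg] at a2
    change |(conj y * ((T (y, 0)).1 + (T (0, w)).1)).re| ≤ V at a1
    change |(conj y * ((T (y, 0)).1 + -(T (0, w)).1)).re| ≤ V at a2
    rw [mul_add, Complex.add_re] at a1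
    rw [← sub_eq_add_neg, mul_sub, Complex.sub_re] at a2
    exact abs_add_abs_le _ _ _ a1 a2
  have r2 : ∀ y w : ℂ, ‖y‖ = 1 → ‖w‖ ≤ 1 →
      |(conj y * (T (0, y)).2).re| + |(conj y * (T (w, 0)).2).re| ≤ V := by
    intro y w hy hw
    have a1 := le_numRadius T (hst2 y w hy hw)
    have a2 := le_numRadius T (hst2 y (-w) hy (by rwa [norm_neg]))
    rw [hsplit] at a1 a2
    rw [hneg'] at a2
    change |(conj y * ((T (w, 0)).2 + (T (0, y)).2)).re| ≤ V at a1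
    change |(conj y * (-(T (w, 0)).2 + (T (0, y)).2)).re| ≤ V at a2
    rw [add_comm, mul_add, Complex.add_re] at a1
    rw [add_comm, ← sub_eq_add_neg, mul_sub, Complex.sub_re] at a2
    exact abs_add_abs_le _ _ _ a1 a2
  obtain ⟨κ1, h1⟩ := row_bound
    ((ContinuousLinearMap.fst ℝ ℂ ℂ).comp (T.comp (ContinuousLinearMap.inl ℝ ℂ ℂ)))
    ((ContinuousLinearMap.fst ℝ ℂ ℂ).comp (T.comp (ContinuousLinearMap.inr ℝ ℂ ℂ))) V r1
  obtain ⟨κ2, h2⟩ := row_bound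
    ((ContinuousLinearMap.snd ℝ ℂ ℂ).comp (T.comp (ContinuousLinearMap.inr ℝ ℂ ℂ)))
    ((ContinuousLinearMap.snd ℝ ℂ ℂ).comp (T.comp (ContinuousLinearMap.inl ℝ ℂ ℂ))) V r2
  set S : (ℂ × ℂ) →L[ℝ] (ℂ × ℂ) :=
    (ContinuousLinearMap.mul ℝ ℂ (κ1 * Complex.I)).prodMap
      (ContinuousLinearMap.mul ℝ ℂ (κ2 * Complex.I)) with hS
  have hSa : ∀ z w : ℂ, S (z, w) = (κ1 * Complex.I * z, κ2 * Complex.I * w) := fun z w => rfl
  have hS0 : numRadius S = 0 := by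
    apply numRadius_eq_zero S (κ1 ^ 2 + κ2 ^ 2)
    rintro ⟨z, w⟩ t
    rw [hSa, Prod.smul_mk, Prod.mk_add_mk, Prod.norm_mk]
    apply max_le
    · refine (rot_le κ1 t z).trans ?_
      have e1 : ‖z‖ ≤ ‖(z, w)‖ := norm_fst_le (z, w)
      have e2 : 1 + κ1 ^ 2 * t ^ 2 ≤ 1 + (κ1 ^ 2 + κ2 ^ 2) * t ^ 2 := by
        nlinarith [mul_nonneg (sq_nonneg κ2) (sq_nonneg t)]
      have e3 : 0 ≤ 1 + κ1 ^ 2 * t ^ 2 := by positivity
      exact mul_le_mul e2 e1 (norm_nonneg _) (by positivity)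
    · refine (rot_le κ2 t w).trans ?_
      have e1 : ‖w‖ ≤ ‖(z, w)‖ := norm_snd_le (z, w)
      have e2 : 1 + κ2 ^ 2 * t ^ 2 ≤ 1 + (κ1 ^ 2 + κ2 ^ 2) * t ^ 2 := by
        nlinarith [mul_nonneg (sq_nonneg κ1) (sq_nonneg t)]
      exact mul_le_mul e2 e1 (norm_nonneg _) (by positivity)
  have hTS : ‖T + S‖ ≤ cst * V := by
    apply ContinuousLinearMap.opNorm_le_of_unit_norm
      (mul_nonneg cst_pos.le (numRadius_nonneg T))
    rintro ⟨z, w⟩ hzw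
    have hz : ‖z‖ ≤ 1 := by rw [← hzw]; exact norm_fst_le (z, w)
    have hw : ‖w‖ ≤ 1 := by rw [← hzw]; exact norm_snd_le (z, w)
    rw [add_apply, hSa, hsplit]
    have b1 := h1 z w hz hw
    have b2 := h2 w z hw hz
    change ‖(T (z, 0)).1 + κ1 * Complex.I * z + (T (0, w)).1‖ ≤ cst * V at b1
    change ‖(T (0, w)).2 + κ2 * Complex.I * w + (T (z, 0)).2‖ ≤ cst * V at b2
    rw [Prod.norm_def]
    apply max_le
    · change ‖(T (z, 0)).1 + (T (0, w)).1 + κ1 * Complex.I * z‖ ≤ cst * V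
      rwa [add_right_comm]
    · change ‖(T (z, 0)).2 + (T (0, w)).2 + κ2 * Complex.I * w‖ ≤ cst * V
      rwa [add_assoc, add_comm]
  have hq : quotNorm T ≤ cst * V := (quotNorm_le T S hS0).trans hTS
  have h27 : 27 / (7 * Real.sqrt 21) * cst = 1 := by
    unfold cst
    have : Real.sqrt 21 ≠ 0 := by positivity
    field_simp
  calc 27 / (7 * Real.sqrt 21) * quotNorm T ≤ 27 / (7 * Real.sqrt 21) * (cst * V) := by gcongr
    _ = V := by rw [← mul_assoc, h27, one_mul]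

end Pool.Agent.H121.SNI
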