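import Pool.Agent.helper121_SNI.LInf

/-!
# `ℂ ⊕_∞ ℂ`, the upper bound
-/

set_option autoImplicit false

namespace Pool.Agent.H121.SNI

open ComplexConjugate

/-- the normalising factor `12/(7√21)` -/
noncomputable def lam : ℝ := 12 / (7 * Real.sqrt 21)

lemma lam_pos : 0 < lam := by unfold lam; positivity

lemma s21 : Real.sqrt 21 ^ 2 = 21 := Real.sq_sqrt (by norm_num)

lemma lam_mul : lam * (7 * Real.sqrt 21) = 12 := by
  unfold lam
  have : Real.sqrt 21 ≠ 0 := by positivity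
  field_simp

lemma lam_sq : lam ^ 2 = 48 / 343 := by
  unfold lam
  rw [div_pow, mul_pow, s21]; norm_num

lemma lam_nine : lam * (9 / 4) = 27 / (7 * Real.sqrt 21) := by
  unfold lam
  have : Real.sqrt 21 ≠ 0 := by positivity
  field_simp
  norm_num

/-- the first row `(z, w) ↦ λ (-(3/4) z + conj z + 2 Re w)` -/
noncomputable def rowOp : (ℂ × ℂ) →L[ℝ] ℂ :=
  lam • ((-(3 / 4 : ℝ)) • ContinuousLinearMap.fst ℝ ℂ ℂ +
    (Complex.conjCLE : ℂ →L[ℝ] ℂ).comp (ContinuousLinearMap.fst ℝ ℂ ℂ) +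
    (2 : ℝ) • (Complex.ofRealCLM.comp Complex.reCLM).comp (ContinuousLinearMap.snd ℝ ℂ ℂ))

/-- the extremal operator `(z, w) ↦ λ (-(3/4) z + conj z + 2 Re w, 0)` -/
noncomputable def infOp : (ℂ × ℂ) →L[ℝ] (ℂ × ℂ) := rowOp.prod 0

lemma rowOp_apply (z w : ℂ) :
    rowOp (z, w) = lam * (-(3 / 4) * z + conj z + 2 * (w.re : ℂ)) := by
  have : rowOp (z, w) = lam • ((-(3 / 4 : ℝ)) • z + conj z + (2 : ℝ) • (w.re : ℂ)) := rfl
  rw [this]
  simp only [Complex.real_smul]
  push_cast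
  ring

lemma infOp_apply (z w : ℂ) :
    infOp (z, w) = (lam * (-(3 / 4) * z + conj z + 2 * (w.re : ℂ)), 0) := by
  rw [← rowOp_apply]; rfl

lemma infOp_norm_le : ‖infOp‖ ≤ 1 := by
  apply ContinuousLinearMap.opNorm_le_of_unit_norm zero_le_one
  rintro ⟨z, w⟩ hzw
  have hz : ‖z‖ ≤ 1 := by rw [← hzw]; exact norm_fst_le (z, w)
  have hw : ‖w‖ ≤ 1 := by rw [← hzw]; exact norm_snd_le (z, w)
  rw [infOp_apply, Prod.norm_mk, norm_zero]
  apply max_le _ zero_le_one
  have hu : |w.re| ≤ 1 := (Complex.abs_re_le_norm w).trans hw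
  have hz2 : z.re ^ 2 + z.im ^ 2 ≤ 1 := by
    have h1 : Complex.normSq z ≤ 1 := by
      rw [Complex.normSq_eq_norm_sq]; exact pow_le_one₀ (norm_nonneg _) hz
    rw [Complex.normSq_apply] at h1; linarith
  have h2 : ‖(lam * (-(3 / 4) * z + conj z + 2 * (w.re : ℂ)) : ℂ)‖ ^ 2 =
      lam ^ 2 * ((z.re / 4 + 2 * w.re) ^ 2 + (7 / 4 * z.im) ^ 2) := by
    rw [← Complex.normSq_eq_norm_sq, Complex.normSq_apply]
    simp [Complex.mul_re, Complex.mul_im]
    ring
  apply le_of_sq_le_sq _ zero_le_one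
  rw [h2, lam_sq]
  have h3 : (z.re / 4 + 2 * w.re) ^ 2 ≤ (|z.re| / 4 + 2) ^ 2 := by
    rw [sq_le_sq]
    have h4 := abs_add_le (z.re / 4) (2 * w.re)
    have h5 : |z.re / 4| = |z.re| / 4 := by rw [abs_div]; norm_num
    have h6 : |2 * w.re| = 2 * |w.re| := by rw [abs_mul]; norm_num
    rw [abs_of_nonneg (by positivity : 0 ≤ |z.re| / 4 + 2)]
    linarith
  have h7 : |z.re| ^ 2 = z.re ^ 2 := sq_abs _
  nlinarith [sq_nonneg (|z.re| - 1 / 6)]

lemma infOp_le (S : (ℂ × ℂ) →L[ℝ] (ℂ × ℂ)) (hS : numRadius S = 0) : 1 ≤ ‖infOp + S‖ := by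
  have hst1 : ∀ y w : ℂ, ‖y‖ = 1 → ‖w‖ ≤ 1 →
      IsState (y, w) ((pair y).comp (ContinuousLinearMap.fst ℝ ℂ ℂ)) := by
    intro y w hy hw
    apply isState_of
    · rw [Prod.norm_mk, hy]; exact max_eq_left hw
    · rintro ⟨z1, z2⟩
      show |(conj y * z1).re| ≤ _
      refine (abs_pair_le y z1).trans ?_
      rw [hy, one_mul]; exact norm_fst_le (z1, z2)
    · exact conj_mul_self_re y hy
  have hsplit : ∀ z w : ℂ, S (z, w) = S (z, 0) + S (0, w) := by
    intro z w; rw [← map_add]; simp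
  have hz : ∀ y w : ℂ, ‖y‖ = 1 → ‖w‖ ≤ 1 → (conj y * (S (y, w)).1).re = 0 := by
    intro y w hy hw
    have a1 := le_numRadius S (hst1 y w hy hw)
    rw [hS] at a1
    exact abs_nonpos_iff.mp a1
  obtain ⟨κ, hκ⟩ := skew_of
    ((ContinuousLinearMap.fst ℝ ℂ ℂ).comp (S.comp (ContinuousLinearMap.inl ℝ ℂ ℂ)))
    (fun y hy => hz y 0 hy (by simp))
  have hB : ∀ w : ℂ, ‖w‖ ≤ 1 → (S (0, w)).1 = 0 := by
    intro w hw
    have k : ∀ y : ℂ, ‖y‖ = 1 → (conj y * (S (0, w)).1).re = 0 := by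
      intro y hy
      have k1 := hz y w hy hw
      rw [hsplit] at k1
      change (conj y * ((S (y, 0)).1 + (S (0, w)).1)).re = 0 at k1
      rw [mul_add, Complex.add_re, hz y 0 hy (by simp), zero_add] at k1
      exact k1
    have k2 := k 1 (by simp)
    have k3 := k Complex.I (by simp)
    apply Complex.ext
    · simpa using k2
    · simpa using k3
  have h35 : Real.sqrt 35 ^ 2 = 35 := Real.sq_sqrt (by norm_num)
  obtain ⟨s, hs1, hs2⟩ : ∃ s : ℝ, s ^ 2 = 1 ∧ κ * s ≤ 0 := by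
    rcases le_total 0 κ with h | h
    · exact ⟨-1, by norm_num, by linarith⟩
    · exact ⟨1, by norm_num, by linarith⟩
  set z : ℂ := ⟨1 / 6, s * Real.sqrt 35 / 6⟩ with hzdef
  have hzn : ‖z‖ = 1 := by
    have : Complex.normSq z = 1 := by
      rw [hzdef, Complex.normSq_mk]
      linear_combination (1 / 36) * Real.sqrt 35 ^ 2 * hs1 + (1 / 36) * h35
    rw [Complex.normSq_eq_norm_sq] at this
    exact (pow_eq_one_iff_of_nonneg (norm_nonneg _) two_ne_zero).mp this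
  have hx : ‖((z, 1) : ℂ × ℂ)‖ = 1 := by rw [Prod.norm_mk, hzn]; simp
  have h1 := (infOp + S).le_opNorm (z, 1)
  rw [hx, mul_one] at h1
  refine le_trans ?_ h1
  refine le_trans ?_ (norm_fst_le _)
  have h2 : ((infOp + S) (z, 1)).1 =
      lam * (-(3 / 4) * z + conj z + 2) + κ * Complex.I * z := by
    rw [add_apply, hsplit, infOp_apply]
    have e1 := hκ z
    change (S (z, 0)).1 = κ * Complex.I * z at e1
    have e2 := hB 1 (by simp)
    show _ + ((S (z, 0)).1 + (S (0, 1)).1) = _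
    rw [e1, e2]
    simp
  rw [h2]
  have h3 : ‖lam * (-(3 / 4) * z + conj z + 2) + κ * Complex.I * z‖ ^ 2 =
      1 + κ ^ 2 - 7 / 9 * lam * Real.sqrt 35 * (κ * s) := by
    rw [← Complex.normSq_eq_norm_sq, Complex.normSq_apply, hzdef]
    simp [Complex.mul_re, Complex.mul_im]
    have e := lam_sq
    generalize Real.sqrt 35 = r at *
    have e3 : s ^ 2 * r ^ 2 = 35 := by rw [hs1, h35]; norm_num
    linear_combination (lam ^ 2 * 49 / 576 + κ ^ 2 / 36) * e3 + (4116 / 576) * e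
  apply le_of_sq_le_sq _ (norm_nonneg _)
  rw [h3]
  have h4 : 0 ≤ lam * Real.sqrt 35 * (-(κ * s)) :=
    mul_nonneg (mul_nonneg lam_pos.le (Real.sqrt_nonneg _)) (by linarith)
  nlinarith [sq_nonneg κ]

lemma infOp_quotNorm : quotNorm infOp = 1 := by
  apply le_antisymm
  · have := quotNorm_le infOp 0 numRadius_zero
    rw [add_zero] at this
    exact this.trans infOp_norm_le
  · exact le_quotNorm _ _ infOp_le

/-- a real-linear functional on `ℂ` is `Re (conj p z)` -/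
lemma exists_pair (g : ℂ →L[ℝ] ℝ) : ∃ p : ℂ, ∀ z, g z = (conj p * z).re := by
  refine ⟨⟨g 1, g Complex.I⟩, fun z => ?_⟩
  have h1 : g z = z.re * g 1 + z.im * g Complex.I := by
    conv_lhs => rw [← Complex.re_add_im z]
    have e1 : (z.re : ℂ) = z.re • (1 : ℂ) := by simp
    have e2 : (z.im : ℂ) * Complex.I = z.im • Complex.I := by simp
    rw [map_add, e2, e1, map_smul, map_smul, smul_eq_mul, smul_eq_mul]
  rw [h1]
  simp only [Complex.mul_re, Complex.conj_re, Complex.conj_im]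
  ring

lemma infOp_numRadius : numRadius infOp ≤ 27 / (7 * Real.sqrt 21) := by
  rw [← lam_nine]
  apply numRadius_le _ _ (by have := lam_pos; positivity)
  rintro ⟨z0, w0⟩ f ⟨hx, hf, hfx⟩
  have hz0 : ‖z0‖ ≤ 1 := by rw [← hx]; exact norm_fst_le (z0, w0)
  have hw0 : ‖w0‖ ≤ 1 := by rw [← hx]; exact norm_snd_le (z0, w0)
  have hu : |w0.re| ≤ 1 := (Complex.abs_re_le_norm w0).trans hw0
  have hfle : ∀ x, f x ≤ ‖x‖ := fun x => by
    have := f.le_opNorm x
    rw [hf, one_mul] at this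
    exact (le_abs_self _).trans this
  obtain ⟨p, hp⟩ := exists_pair (f.comp (ContinuousLinearMap.inl ℝ ℂ ℂ))
  change ∀ z, f (z, 0) = (conj p * z).re at hp
  have hsplit : ∀ z w : ℂ, f (z, w) = f (z, 0) + f (0, w) := by
    intro z w; rw [← map_add]; simp
  rw [infOp_apply, hp]
  by_cases hp0 : p = 0
  · rw [hp0]; simp; exact lam_pos.le
  have hpn : 0 < ‖p‖ := norm_pos_iff.mpr hp0
  set v : ℂ := p / ‖p‖ with hv
  have hvn : ‖v‖ = 1 := by rw [hv, norm_div, Complex.norm_real, norm_norm, div_self hpn.ne']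
  have hpv : p = ‖p‖ * v := by
    rw [hv]
    have : ((‖p‖ : ℝ) : ℂ) ≠ 0 := by exact_mod_cast hpn.ne'
    field_simp
  have hcpv : (conj p * v).re = ‖p‖ := by
    rw [hpv]
    simp only [map_mul, Complex.conj_ofReal]
    rw [mul_assoc, Complex.re_ofReal_mul, conj_mul_self_re v hvn]
    simp [hvn]
  have h1 : ‖p‖ ≤ (conj p * z0).re := by
    have e1 := hfle (v, w0)
    rw [hsplit, hp, hcpv, Prod.norm_mk, hvn, max_eq_left hw0] at e1
    rw [hsplit, hp] at hfx
    linarith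
  have hp1 : ‖p‖ ≤ 1 := by
    have e1 := hfle (v, 0)
    rw [hp, hcpv, Prod.norm_mk, hvn] at e1
    simpa using e1
  -- `z0 = v`
  have h2 : (conj v * z0).re = 1 := by
    have e1 : (conj p * z0).re = ‖p‖ * (conj v * z0).re := by
      conv_lhs => rw [hpv]
      simp only [map_mul, Complex.conj_ofReal]
      rw [mul_assoc, Complex.re_ofReal_mul]
    rw [e1] at h1
    have e2 : 1 ≤ (conj v * z0).re := by
      by_contra hlt
      push Not at hlt
      nlinarith
    have e3 : (conj v * z0).re ≤ 1 := by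
      have := (le_abs_self _).trans (abs_pair_le v z0)
      rw [hvn, one_mul] at this
      exact this.trans hz0
    linarith
  have hv2 : v.re ^ 2 + v.im ^ 2 = 1 := by
    have : Complex.normSq v = 1 := by rw [Complex.normSq_eq_norm_sq, hvn]; norm_num
    rw [Complex.normSq_apply] at this; linarith
  have hz2 : z0.re ^ 2 + z0.im ^ 2 ≤ 1 := by
    have h1 : Complex.normSq z0 ≤ 1 := by
      rw [Complex.normSq_eq_norm_sq]; exact pow_le_one₀ (norm_nonneg _) hz0
    rw [Complex.normSq_apply] at h1; linarith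
  simp only [Complex.mul_re, Complex.conj_re, Complex.conj_im] at h2
  have hd : (z0.re - v.re) ^ 2 + (z0.im - v.im) ^ 2 ≤ 0 := by nlinarith
  have hre : z0.re = v.re := by nlinarith [sq_nonneg (z0.re - v.re), sq_nonneg (z0.im - v.im)]
  have him : z0.im = v.im := by nlinarith [sq_nonneg (z0.re - v.re), sq_nonneg (z0.im - v.im)]
  have hz0v : z0 = v := Complex.ext hre him
  have h5 : (conj p * (lam * (-(3 / 4) * z0 + conj z0 + 2 * (w0.re : ℂ)))).re =
      ‖p‖ * lam * (-(3 / 4) + v.re ^ 2 - v.im ^ 2 + 2 * w0.re * v.re) := by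
    rw [hz0v]
    conv_lhs => rw [hpv]
    simp [Complex.mul_re, Complex.mul_im]
    linear_combination (-(3 / 4) * ‖p‖ * lam) * hv2
  rw [h5, abs_mul, abs_mul, abs_of_pos hpn, abs_of_pos lam_pos]
  have h6 := core v.re v.im w0.re hv2 hu
  have h7 := lam_pos
  calc ‖p‖ * lam * |-(3 / 4) + v.re ^ 2 - v.im ^ 2 + 2 * w0.re * v.re|
      ≤ 1 * lam * (9 / 4) := by gcongr
    _ = lam * (9 / 4) := by ring

theorem lInf_upper : ∃ T : (ℂ × ℂ) →L[ℝ] (ℂ × ℂ),
    quotNorm T = 1 ∧ numRadius T ≤ 27 / (7 * Real.sqrt 21) :=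
  ⟨infOp, infOp_quotNorm, infOp_numRadius⟩

theorem secondIndex_lInf : secondIndex (ℂ × ℂ) = 27 / (7 * Real.sqrt 21) :=
  secondIndex_eq _ lInf_lower lInf_upper

end Pool.Agent.H121.SNI
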