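import Pool.Agent.helper121_SNI.LInfU

/-!
# `ℂ ⊕₁ ℂ`
-/

set_option autoImplicit false

namespace Pool.Agent.H121.SNI

open ComplexConjugate

/-- the real space `ℂ ⊕₁ ℂ` -/
abbrev L1 := WithLp 1 (ℂ × ℂ)

/-- the point `(z, w)` -/
noncomputable abbrev mk1 (z w : ℂ) : L1 := WithLp.toLp 1 (z, w)

/-- the identification with the product -/
noncomputable abbrev E1 : L1 ≃L[ℝ] ℂ × ℂ := WithLp.prodContinuousLinearEquiv 1 ℝ ℂ ℂ

lemma norm_mk1 (z w : ℂ) : ‖mk1 z w‖ = ‖z‖ + ‖w‖ := WithLp.prod_norm_eq_of_L1 _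

/-- the functional `(z, w) ↦ Re (conj p z) + Re (conj q w)` -/
noncomputable def fn (p q : ℂ) : L1 →L[ℝ] ℝ :=
  ((pair p).comp (ContinuousLinearMap.fst ℝ ℂ ℂ) +
    (pair q).comp (ContinuousLinearMap.snd ℝ ℂ ℂ)).comp (E1 : L1 →L[ℝ] ℂ × ℂ)

lemma fn_apply (p q : ℂ) (x : L1) : fn p q x = (conj p * x.fst).re + (conj q * x.snd).re := rfl

lemma fn_le (p q : ℂ) (hp : ‖p‖ ≤ 1) (hq : ‖q‖ ≤ 1) (x : L1) : |fn p q x| ≤ ‖x‖ := by
  rw [fn_apply, WithLp.prod_norm_eq_of_L1]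
  refine (abs_add_le _ _).trans ?_
  have h1 := abs_pair_le p x.fst
  have h2 := abs_pair_le q x.snd
  have h3 : ‖p‖ * ‖x.fst‖ ≤ ‖x.fst‖ := mul_le_of_le_one_left (norm_nonneg _) hp
  have h4 : ‖q‖ * ‖x.snd‖ ≤ ‖x.snd‖ := mul_le_of_le_one_left (norm_nonneg _) hq
  linarith

lemma st1 (z q : ℂ) (hz : ‖z‖ = 1) (hq : ‖q‖ ≤ 1) : IsState (mk1 z 0) (fn z q) := by
  apply isState_of
  · rw [norm_mk1, hz]; simp
  · exact fn_le z q hz.le hq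
  · rw [fn_apply]; simp [conj_mul_self_re z hz]

lemma st2 (z q : ℂ) (hz : ‖z‖ = 1) (hq : ‖q‖ ≤ 1) : IsState (mk1 0 z) (fn q z) := by
  apply isState_of
  · rw [norm_mk1, hz]; simp
  · exact fn_le q z hq hz.le
  · rw [fn_apply]; simp
    exact by simpa using conj_mul_self_re z hz

/-- the homogeneous form of the column estimate -/
lemma col_hom (A B : ℂ →L[ℝ] ℂ) (κ C : ℝ)
    (h : ∀ z : ℂ, ‖z‖ = 1 → ‖A z + κ * Complex.I * z‖ + ‖B z‖ ≤ C) (z : ℂ) :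
    ‖A z + κ * Complex.I * z‖ + ‖B z‖ ≤ C * ‖z‖ := by
  by_cases hz : z = 0
  · rw [hz]; simp
  have hn : 0 < ‖z‖ := norm_pos_iff.mpr hz
  set u : ℂ := z / ‖z‖ with hu
  have hun : ‖u‖ = 1 := by rw [hu, norm_div, Complex.norm_real, norm_norm, div_self hn.ne']
  have hzu : z = ‖z‖ • u := by
    rw [hu, Complex.real_smul]
    have : ((‖z‖ : ℝ) : ℂ) ≠ 0 := by exact_mod_cast hn.ne'
    field_simp
  have h1 := h u hun
  have h2 : A z + κ * Complex.I * z = ‖z‖ • (A u + κ * Complex.I * u) := by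
    conv_lhs => rw [hzu]
    rw [map_smul, smul_add, Complex.real_smul, Complex.real_smul, Complex.real_smul]
    ring
  have h3 : B z = ‖z‖ • B u := by
    conv_lhs => rw [hzu]
    rw [map_smul]
  rw [h2, h3, norm_smul, norm_smul, norm_norm]
  nlinarith

/-- lower bound for the `ℓ₁`-sum -/
theorem lOne_lower (T : L1 →L[ℝ] L1) :
    27 / (7 * Real.sqrt 21) * quotNorm T ≤ numRadius T := by
  set V := numRadius T with hV
  have r1 : ∀ z q : ℂ, ‖z‖ = 1 → ‖q‖ ≤ 1 →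
      |(conj z * (T (mk1 z 0)).fst).re| + |(conj q * (T (mk1 z 0)).snd).re| ≤ V := by
    intro z q hz hq
    have a1 := le_numRadius T (st1 z q hz hq)
    have a2 := le_numRadius T (st1 z (-q) hz (by rwa [norm_neg]))
    rw [fn_apply] at a1 a2
    rw [map_neg, neg_mul, Complex.neg_re, ← sub_eq_add_neg] at a2
    exact abs_add_abs_le _ _ _ a1 a2
  have r2 : ∀ z q : ℂ, ‖z‖ = 1 → ‖q‖ ≤ 1 →
      |(conj z * (T (mk1 0 z)).snd).re| + |(conj q * (T (mk1 0 z)).fst).re| ≤ V := by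
    intro z q hz hq
    have a1 := le_numRadius T (st2 z q hz hq)
    have a2 := le_numRadius T (st2 z (-q) hz (by rwa [norm_neg]))
    rw [fn_apply, add_comm] at a1 a2
    rw [map_neg, neg_mul, Complex.neg_re, ← sub_eq_add_neg] at a2
    exact abs_add_abs_le _ _ _ a1 a2
  set M : (ℂ × ℂ) →L[ℝ] (ℂ × ℂ) :=
    (E1 : L1 →L[ℝ] ℂ × ℂ).comp (T.comp (E1.symm : (ℂ × ℂ) →L[ℝ] L1)) with hM
  obtain ⟨κ1, h1⟩ := col_bound
    ((ContinuousLinearMap.fst ℝ ℂ ℂ).comp (M.comp (ContinuousLinearMap.inl ℝ ℂ ℂ)))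
    ((ContinuousLinearMap.snd ℝ ℂ ℂ).comp (M.comp (ContinuousLinearMap.inl ℝ ℂ ℂ))) V r1
  obtain ⟨κ2, h2⟩ := col_bound
    ((ContinuousLinearMap.snd ℝ ℂ ℂ).comp (M.comp (ContinuousLinearMap.inr ℝ ℂ ℂ)))
    ((ContinuousLinearMap.fst ℝ ℂ ℂ).comp (M.comp (ContinuousLinearMap.inr ℝ ℂ ℂ))) V r2
  have h1' := col_hom _ _ κ1 _ h1
  have h2' := col_hom _ _ κ2 _ h2
  change ∀ z : ℂ, ‖(T (mk1 z 0)).fst + κ1 * Complex.I * z‖ + ‖(T (mk1 z 0)).snd‖ ≤ cst * V * ‖z‖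
    at h1'
  change ∀ z : ℂ, ‖(T (mk1 0 z)).snd + κ2 * Complex.I * z‖ + ‖(T (mk1 0 z)).fst‖ ≤ cst * V * ‖z‖
    at h2'
  set S : L1 →L[ℝ] L1 := (E1.symm : (ℂ × ℂ) →L[ℝ] L1).comp
    (((ContinuousLinearMap.mul ℝ ℂ (κ1 * Complex.I)).prodMap
      (ContinuousLinearMap.mul ℝ ℂ (κ2 * Complex.I))).comp (E1 : L1 →L[ℝ] ℂ × ℂ)) with hS
  have hSa : ∀ z w : ℂ, S (mk1 z w) = mk1 (κ1 * Complex.I * z) (κ2 * Complex.I * w) :=
    fun z w => rfl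
  have hS0 : numRadius S = 0 := by
    apply numRadius_eq_zero S (κ1 ^ 2 + κ2 ^ 2)
    intro x t
    obtain ⟨z, w, rfl⟩ : ∃ z w, x = mk1 z w := ⟨x.fst, x.snd, rfl⟩
    rw [hSa]
    have e0 : mk1 z w + t • mk1 (κ1 * Complex.I * z) (κ2 * Complex.I * w) =
      mk1 (z + t • (κ1 * Complex.I * z)) (w + t • (κ2 * Complex.I * w)) := rfl
    rw [e0, norm_mk1, norm_mk1]
    have e1 := rot_le κ1 t z
    have e2 := rot_le κ2 t w
    have e3 : κ1 ^ 2 * t ^ 2 * ‖z‖ ≤ (κ1 ^ 2 + κ2 ^ 2) * t ^ 2 * ‖z‖ := by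
      gcongr; nlinarith [sq_nonneg κ2]
    have e4 : κ2 ^ 2 * t ^ 2 * ‖w‖ ≤ (κ1 ^ 2 + κ2 ^ 2) * t ^ 2 * ‖w‖ := by
      gcongr; nlinarith [sq_nonneg κ1]
    nlinarith
  have hTS : ‖T + S‖ ≤ cst * V := by
    apply ContinuousLinearMap.opNorm_le_bound _
      (mul_nonneg cst_pos.le (numRadius_nonneg T))
    intro x
    obtain ⟨z, w, rfl⟩ : ∃ z w, x = mk1 z w := ⟨x.fst, x.snd, rfl⟩
    have e0 : mk1 z w = mk1 z 0 + mk1 0 w := by
      have : mk1 z 0 + mk1 0 w = mk1 (z + 0) (0 + w) := rfl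
      rw [this, add_zero, zero_add]
    have e1 : (T + S) (mk1 z w) = (T + S) (mk1 z 0) + (T + S) (mk1 0 w) := by
      rw [e0, map_add]
    rw [e1, norm_mk1 z w]
    have e4 := norm_add_le ((T + S) (mk1 z 0)) ((T + S) (mk1 0 w))
    have e2 : ‖(T + S) (mk1 z 0)‖ ≤ cst * V * ‖z‖ := by
      rw [add_apply, hSa, WithLp.prod_norm_eq_of_L1]
      change ‖(T (mk1 z 0)).fst + κ1 * Complex.I * z‖ +
        ‖(T (mk1 z 0)).snd + κ2 * Complex.I * 0‖ ≤ _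
      rw [mul_zero, add_zero]
      exact h1' z
    have e3 : ‖(T + S) (mk1 0 w)‖ ≤ cst * V * ‖w‖ := by
      rw [add_apply, hSa, WithLp.prod_norm_eq_of_L1]
      change ‖(T (mk1 0 w)).fst + κ1 * Complex.I * 0‖ +
        ‖(T (mk1 0 w)).snd + κ2 * Complex.I * w‖ ≤ _
      rw [mul_zero, add_zero, add_comm]
      exact h2' w
    linarith
  have hq : quotNorm T ≤ cst * V := (quotNorm_le T S hS0).trans hTS
  have h27 : 27 / (7 * Real.sqrt 21) * cst = 1 := by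
    unfold cst
    have : Real.sqrt 21 ≠ 0 := by positivity
    field_simp
  calc 27 / (7 * Real.sqrt 21) * quotNorm T ≤ 27 / (7 * Real.sqrt 21) * (cst * V) := by gcongr
    _ = V := by rw [← mul_assoc, h27, one_mul]

end Pool.Agent.H121.SNI
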