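import Pool.Agent.helper121_SNI.LOne

/-!
# `ℂ ⊕₁ ℂ`, the upper bound
-/

set_option autoImplicit false

namespace Pool.Agent.H121.SNI

open ComplexConjugate

/-- the operator `(z, w) ↦ λ (-(3/4) z + conj z, 2 Re z)` on the product -/
noncomputable def oneOp0 : (ℂ × ℂ) →L[ℝ] (ℂ × ℂ) :=
  (lam • ((-(3 / 4 : ℝ)) • ContinuousLinearMap.fst ℝ ℂ ℂ +
    (Complex.conjCLE : ℂ →L[ℝ] ℂ).comp (ContinuousLinearMap.fst ℝ ℂ ℂ))).prod
  (lam • ((2 : ℝ) • (Complex.ofRealCLM.comp Complex.reCLM).comp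
    (ContinuousLinearMap.fst ℝ ℂ ℂ)))

/-- the extremal operator `(z, w) ↦ λ (-(3/4) z + conj z, 2 Re z)` -/
noncomputable def oneOp : L1 →L[ℝ] L1 :=
  (E1.symm : (ℂ × ℂ) →L[ℝ] L1).comp (oneOp0.comp (E1 : L1 →L[ℝ] ℂ × ℂ))

lemma oneOp_apply (z w : ℂ) :
    oneOp (mk1 z w) = mk1 (lam * (-(3 / 4) * z + conj z)) (lam * (2 * (z.re : ℂ))) := by
  have : oneOp (mk1 z w) = mk1 (lam • ((-(3 / 4 : ℝ)) • z + conj z))
    (lam • ((2 : ℝ) • (z.re : ℂ))) := rfl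
  rw [this]
  simp only [Complex.real_smul]
  push_cast
  rfl

lemma oneOp_bound (z : ℂ) (hz : ‖z‖ = 1) :
    ‖(lam * (-(3 / 4) * z + conj z) : ℂ)‖ + ‖(lam * (2 * (z.re : ℂ)) : ℂ)‖ ≤ 1 := by
  have hz2 : z.re ^ 2 + z.im ^ 2 = 1 := by
    have h1 : Complex.normSq z = 1 := by
      rw [Complex.normSq_eq_norm_sq, hz]; norm_num
    rw [Complex.normSq_apply] at h1; linarith
  have h1 : ‖(lam * (2 * (z.re : ℂ)) : ℂ)‖ = 2 * lam * |z.re| := by
    rw [norm_mul, norm_mul, Complex.norm_real, Complex.norm_real, Real.norm_eq_abs,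
      Real.norm_eq_abs, abs_of_pos lam_pos]
    norm_num; ring
  have h2 : ‖(lam * (-(3 / 4) * z + conj z) : ℂ)‖ ^ 2 =
      lam ^ 2 * ((z.re / 4) ^ 2 + (7 / 4 * z.im) ^ 2) := by
    rw [← Complex.normSq_eq_norm_sq, Complex.normSq_apply]
    simp [Complex.mul_re, Complex.mul_im]
    ring
  have h3 : |z.re| ^ 2 = z.re ^ 2 := sq_abs _
  have ha : 0 ≤ |z.re| := abs_nonneg _
  have ha1 : |z.re| ≤ 1 := (Complex.abs_re_le_norm z).trans hz.le
  have hl := lam_sq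
  have hlp := lam_pos
  have hs := s21
  have hsp : 0 < Real.sqrt 21 := by positivity
  have hlm := lam_mul
  -- `λ = 4√21/49`
  have hlam : lam = 4 * Real.sqrt 21 / 49 := by
    have : lam * (7 * Real.sqrt 21) * Real.sqrt 21 = 12 * Real.sqrt 21 := by rw [hlm]
    have h5 : lam * (7 * 21) = 12 * Real.sqrt 21 := by
      linear_combination this - 7 * lam * hs
    linarith
  have h4 : 2 * lam * |z.re| ≤ 1 := by
    have h5 : lam ≤ 1 / 2 := by
      by_contra hlt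
      push Not at hlt
      nlinarith
    nlinarith
  have h6 : ‖(lam * (-(3 / 4) * z + conj z) : ℂ)‖ ≤ 1 - 2 * lam * |z.re| := by
    apply le_of_sq_le_sq _ (by linarith)
    rw [h2, hl]
    have h7 : (1 - 2 * lam * |z.re|) ^ 2 = 1 - 4 * lam * |z.re| + 4 * lam ^ 2 * |z.re| ^ 2 := by
      ring
    rw [h7, hl, hlam]
    nlinarith [sq_nonneg (|z.re| - Real.sqrt 21 / 6)]
  linarith

lemma oneOp_norm_le : ‖oneOp‖ ≤ 1 := by
  apply ContinuousLinearMap.opNorm_le_bound _ zero_le_one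
  intro x
  obtain ⟨z, w, rfl⟩ : ∃ z w, x = mk1 z w := ⟨x.fst, x.snd, rfl⟩
  rw [oneOp_apply, norm_mk1, norm_mk1 z w, one_mul]
  by_cases hz : z = 0
  · rw [hz]; simp
  have hn : 0 < ‖z‖ := norm_pos_iff.mpr hz
  set u : ℂ := z / ‖z‖ with hu
  have hun : ‖u‖ = 1 := by rw [hu, norm_div, Complex.norm_real, norm_norm, div_self hn.ne']
  have hzu : z = (‖z‖ : ℂ) * u := by
    rw [hu]
    have : ((‖z‖ : ℝ) : ℂ) ≠ 0 := by exact_mod_cast hn.ne'
    field_simp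
  have h1 := oneOp_bound u hun
  have h2 : (lam * (-(3 / 4) * z + conj z) : ℂ) =
      (‖z‖ : ℂ) * (lam * (-(3 / 4) * u + conj u)) := by
    conv_lhs => rw [hzu]
    simp only [map_mul, Complex.conj_ofReal]
    ring
  have h3 : (lam * (2 * (z.re : ℂ)) : ℂ) = (‖z‖ : ℂ) * (lam * (2 * (u.re : ℂ))) := by
    have : z.re = ‖z‖ * u.re := by
      conv_lhs => rw [hzu]
      rw [Complex.re_ofReal_mul]
    rw [this]; push_cast; ring
  rw [h2, h3, norm_mul (‖z‖ : ℂ), norm_mul (‖z‖ : ℂ), Complex.norm_real, norm_norm]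
  nlinarith [norm_nonneg w]

lemma oneOp_le (S : L1 →L[ℝ] L1) (hS : numRadius S = 0) : 1 ≤ ‖oneOp + S‖ := by
  have hz : ∀ z q : ℂ, ‖z‖ = 1 → ‖q‖ ≤ 1 →
      (conj z * (S (mk1 z 0)).fst).re + (conj q * (S (mk1 z 0)).snd).re = 0 := by
    intro z q hz hq
    have a1 := le_numRadius S (st1 z q hz hq)
    rw [hS, fn_apply] at a1
    exact abs_nonpos_iff.mp a1
  have hz0 : ∀ z : ℂ, ‖z‖ = 1 → (conj z * (S (mk1 z 0)).fst).re = 0 := by
    intro z h
    have := hz z 0 h (by simp)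
    simpa using this
  obtain ⟨κ, hκ⟩ := skew_of
    ((ContinuousLinearMap.fst ℝ ℂ ℂ).comp (((E1 : L1 →L[ℝ] ℂ × ℂ).comp
      (S.comp (E1.symm : (ℂ × ℂ) →L[ℝ] L1))).comp (ContinuousLinearMap.inl ℝ ℂ ℂ)))
    (fun y hy => hz0 y hy)
  change ∀ z : ℂ, (S (mk1 z 0)).fst = κ * Complex.I * z at hκ
  have hB : ∀ z : ℂ, ‖z‖ = 1 → (S (mk1 z 0)).snd = 0 := by
    intro z h
    have k : ∀ q : ℂ, ‖q‖ ≤ 1 → (conj q * (S (mk1 z 0)).snd).re = 0 := by
      intro q hq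
      have := hz z q h hq
      rw [hz0 z h, zero_add] at this
      exact this
    have k2 := k 1 (by simp)
    have k3 := k Complex.I (by simp)
    apply Complex.ext
    · simpa using k2
    · simpa using k3
  have h15 : Real.sqrt 15 ^ 2 = 15 := Real.sq_sqrt (by norm_num)
  have h21 := s21
  obtain ⟨s, hs1, hs2⟩ : ∃ s : ℝ, s ^ 2 = 1 ∧ κ * s ≤ 0 := by
    rcases le_total 0 κ with h | h
    · exact ⟨-1, by norm_num, by linarith⟩
    · exact ⟨1, by norm_num, by linarith⟩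
  set z : ℂ := ⟨Real.sqrt 21 / 6, s * Real.sqrt 15 / 6⟩ with hzdef
  have hzn : ‖z‖ = 1 := by
    have : Complex.normSq z = 1 := by
      rw [hzdef, Complex.normSq_mk]
      linear_combination (1 / 36) * Real.sqrt 15 ^ 2 * hs1 + (1 / 36) * h15 + (1 / 36) * h21
    rw [Complex.normSq_eq_norm_sq] at this
    exact (pow_eq_one_iff_of_nonneg (norm_nonneg _) two_ne_zero).mp this
  have hx : ‖mk1 z 0‖ = 1 := by rw [norm_mk1, hzn]; simp
  have h1 := (oneOp + S).le_opNorm (mk1 z 0)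
  rw [hx, mul_one] at h1
  refine le_trans ?_ h1
  rw [add_apply, oneOp_apply, WithLp.prod_norm_eq_of_L1]
  change 1 ≤ ‖(lam * (-(3 / 4) * z + conj z) : ℂ) + (S (mk1 z 0)).fst‖ +
    ‖(lam * (2 * (z.re : ℂ)) : ℂ) + (S (mk1 z 0)).snd‖
  rw [hκ, hB z hzn, add_zero]
  have h3 : ‖(lam * (-(3 / 4) * z + conj z) : ℂ) + κ * Complex.I * z‖ ^ 2 =
      (lam * Real.sqrt 21 / 4) ^ 2 + κ ^ 2 -
        1 / 9 * lam * Real.sqrt 21 * Real.sqrt 15 * (κ * s) := by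
    rw [← Complex.normSq_eq_norm_sq, Complex.normSq_apply, hzdef]
    simp [Complex.mul_re, Complex.mul_im]
    generalize Real.sqrt 15 = r at *
    generalize Real.sqrt 21 = t at *
    have e3 : s ^ 2 * r ^ 2 = 15 := by rw [hs1, h15]; norm_num
    linear_combination (49 * lam ^ 2 / 576 + κ ^ 2 / 36) * e3 +
      (κ ^ 2 / 36 - 35 * lam ^ 2 / 576) * h21
  have h4 : 0 ≤ lam * Real.sqrt 21 * Real.sqrt 15 * (-(κ * s)) :=
    mul_nonneg (mul_nonneg (mul_nonneg lam_pos.le (Real.sqrt_nonneg _)) (Real.sqrt_nonneg _))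
      (by linarith)
  have h5 : lam * Real.sqrt 21 / 4 ≤ ‖(lam * (-(3 / 4) * z + conj z) : ℂ) + κ * Complex.I * z‖ := by
    apply le_of_sq_le_sq _ (norm_nonneg _)
    rw [h3]
    nlinarith [sq_nonneg κ]
  have h6 : ‖(lam * (2 * (z.re : ℂ)) : ℂ)‖ = lam * Real.sqrt 21 / 3 := by
    rw [norm_mul, norm_mul, Complex.norm_real, Complex.norm_real, Real.norm_eq_abs,
      Real.norm_eq_abs, abs_of_pos lam_pos]
    have : z.re = Real.sqrt 21 / 6 := rfl
    rw [this, abs_of_pos (by positivity)]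
    norm_num; ring
  rw [h6]
  have h7 := lam_mul
  linarith

lemma oneOp_quotNorm : quotNorm oneOp = 1 := by
  apply le_antisymm
  · have := quotNorm_le oneOp 0 numRadius_zero
    rw [add_zero] at this
    exact this.trans oneOp_norm_le
  · exact le_quotNorm _ _ oneOp_le

lemma oneOp_numRadius : numRadius oneOp ≤ 27 / (7 * Real.sqrt 21) := by
  rw [← lam_nine]
  apply numRadius_le _ _ (by have := lam_pos; positivity)
  rintro x f ⟨hx, hf, hfx⟩
  obtain ⟨z0, w0, rfl⟩ : ∃ z w, x = mk1 z w := ⟨x.fst, x.snd, rfl⟩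
  rw [norm_mk1 z0 w0] at hx
  have hfle : ∀ x, f x ≤ ‖x‖ := fun x => by
    have := f.le_opNorm x
    rw [hf, one_mul] at this
    exact (le_abs_self _).trans this
  obtain ⟨p, hp⟩ := exists_pair (f.comp ((E1.symm : (ℂ × ℂ) →L[ℝ] L1).comp
    (ContinuousLinearMap.inl ℝ ℂ ℂ)))
  obtain ⟨q, hq⟩ := exists_pair (f.comp ((E1.symm : (ℂ × ℂ) →L[ℝ] L1).comp
    (ContinuousLinearMap.inr ℝ ℂ ℂ)))
  change ∀ z, f (mk1 z 0) = (conj p * z).re at hp
  change ∀ z, f (mk1 0 z) = (conj q * z).re at hq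
  have hsplit : ∀ z w : ℂ, f (mk1 z w) = (conj p * z).re + (conj q * w).re := by
    intro z w
    rw [← hp, ← hq, ← map_add]
    have : mk1 z 0 + mk1 0 w = mk1 (z + 0) (0 + w) := rfl
    rw [this, add_zero, zero_add]
  have hpn : ‖p‖ ≤ 1 := by
    by_cases hp0 : p = 0
    · rw [hp0]; simp
    have e0 : 0 < ‖p‖ := norm_pos_iff.mpr hp0
    have e1 := hfle (mk1 p 0)
    rw [hp, norm_mk1, norm_zero, add_zero, mul_comm, Complex.mul_conj, Complex.ofReal_re,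
      Complex.normSq_eq_norm_sq] at e1
    nlinarith
  have hqn : ‖q‖ ≤ 1 := by
    by_cases hq0 : q = 0
    · rw [hq0]; simp
    have e0 : 0 < ‖q‖ := norm_pos_iff.mpr hq0
    have e1 := hfle (mk1 0 q)
    rw [hq, norm_mk1, norm_zero, zero_add, mul_comm, Complex.mul_conj, Complex.ofReal_re,
      Complex.normSq_eq_norm_sq] at e1
    nlinarith
  have hu : |q.re| ≤ 1 := (Complex.abs_re_le_norm q).trans hqn
  rw [hsplit] at hfx
  have e2 : (conj q * w0).re ≤ ‖w0‖ := by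
    refine ((le_abs_self _).trans (abs_pair_le q w0)).trans ?_
    exact mul_le_of_le_one_left (norm_nonneg _) hqn
  have e1 : (conj p * z0).re ≤ ‖z0‖ := by
    refine ((le_abs_self _).trans (abs_pair_le p z0)).trans ?_
    exact mul_le_of_le_one_left (norm_nonneg _) hpn
  have e3 : (conj p * z0).re = ‖z0‖ := by linarith
  rw [oneOp_apply, hsplit]
  by_cases hz0 : z0 = 0
  · rw [hz0]; simp; exact lam_pos.le
  have hn : 0 < ‖z0‖ := norm_pos_iff.mpr hz0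
  have hz1 : ‖z0‖ ≤ 1 := by linarith [norm_nonneg w0]
  -- `z0 = ‖z0‖ p`, `‖p‖ = 1`
  have hp2 : p.re ^ 2 + p.im ^ 2 ≤ 1 := by
    have h1 : Complex.normSq p ≤ 1 := by
      rw [Complex.normSq_eq_norm_sq]; exact pow_le_one₀ (norm_nonneg _) hpn
    rw [Complex.normSq_apply] at h1; linarith
  have hzz : z0.re ^ 2 + z0.im ^ 2 = ‖z0‖ ^ 2 := by
    rw [← Complex.normSq_eq_norm_sq, Complex.normSq_apply]; ring
  simp only [Complex.mul_re, Complex.conj_re, Complex.conj_im] at e3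
  have hd : (z0.re - ‖z0‖ * p.re) ^ 2 + (z0.im - ‖z0‖ * p.im) ^ 2 ≤ 0 := by
    have : (z0.re - ‖z0‖ * p.re) ^ 2 + (z0.im - ‖z0‖ * p.im) ^ 2 =
      ‖z0‖ ^ 2 * (p.re ^ 2 + p.im ^ 2 - 1) := by
      linear_combination hzz - 2 * ‖z0‖ * e3
    rw [this]
    nlinarith [sq_nonneg ‖z0‖]
  have hre : z0.re = ‖z0‖ * p.re := by
    nlinarith [sq_nonneg (z0.re - ‖z0‖ * p.re), sq_nonneg (z0.im - ‖z0‖ * p.im)]
  have him : z0.im = ‖z0‖ * p.im := by
    nlinarith [sq_nonneg (z0.re - ‖z0‖ * p.re), sq_nonneg (z0.im - ‖z0‖ * p.im)]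
  have hp1 : p.re ^ 2 + p.im ^ 2 = 1 := by
    have h1 : ‖z0‖ ^ 2 * (p.re ^ 2 + p.im ^ 2) = ‖z0‖ ^ 2 := by
      rw [← hzz]
      nth_rewrite 1 [hzz]
      rw [mul_add, ← mul_pow, ← mul_pow, ← hre, ← him]
    have h2 : ‖z0‖ ^ 2 ≠ 0 := by positivity
    exact mul_left_cancel₀ h2 (by rw [h1, mul_one])
  have h5 : (conj p * (lam * (-(3 / 4) * z0 + conj z0))).re +
      (conj q * (lam * (2 * (z0.re : ℂ)))).re =
      ‖z0‖ * lam * (-(3 / 4) + p.re ^ 2 - p.im ^ 2 + 2 * q.re * p.re) := by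
    simp [Complex.mul_re, Complex.mul_im]
    generalize ‖z0‖ = r at *
    rw [hre, him]
    linear_combination (-(3 / 4) * r * lam) * hp1
  rw [h5, abs_mul, abs_mul, abs_of_pos hn, abs_of_pos lam_pos]
  have h6 := core p.re p.im q.re hp1 hu
  have h7 := lam_pos
  calc ‖z0‖ * lam * |-(3 / 4) + p.re ^ 2 - p.im ^ 2 + 2 * q.re * p.re|
      ≤ 1 * lam * (9 / 4) := by gcongr
    _ = lam * (9 / 4) := by ring

theorem lOne_upper : ∃ T : L1 →L[ℝ] L1,
    quotNorm T = 1 ∧ numRadius T ≤ 27 / (7 * Real.sqrt 21) :=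
  ⟨oneOp, oneOp_quotNorm, oneOp_numRadius⟩

theorem secondIndex_lOne : secondIndex (WithLp 1 (ℂ × ℂ)) = 27 / (7 * Real.sqrt 21) :=
  secondIndex_eq _ lOne_lower lOne_upper

end Pool.Agent.H121.SNI
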