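import Pool.Agent.helper121_SNI.Basics

/-!
# `ℂ ⊕_p ℂ`, `1 < p < ∞`, `p ≠ 2`
-/

set_option autoImplicit false

namespace Pool.Agent.H121.SNI

open ComplexConjugate Filter Topology
open scoped ENNReal

/-- the real space `ℂ ⊕_p ℂ` -/
abbrev PS (p : ℝ≥0∞) := WithLp p (ℂ × ℂ)

/-- the point `(z, w)` -/
noncomputable abbrev mkp (p : ℝ≥0∞) (z w : ℂ) : PS p := WithLp.toLp p (z, w)

variable {p : ℝ≥0∞} [Fact (1 ≤ p)]

omit [Fact (1 ≤ p)] in
lemma norm_rpow_eq (hp : 1 < p.toReal) (x : PS p) :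
    ‖x‖ ^ p.toReal = ‖x.fst‖ ^ p.toReal + ‖x.snd‖ ^ p.toReal := by
  have h0 : 0 < p.toReal := by linarith
  rw [WithLp.prod_norm_eq_add h0, ← Real.rpow_mul (by positivity), one_div,
    inv_mul_cancel₀ h0.ne', Real.rpow_one]

lemma deriv_line (r : ℝ) (hr : 1 < r) (a b : ℂ) :
    HasDerivAt (fun t : ℝ => ‖a + t • b‖ ^ r) (r * (‖a‖ ^ (r - 2) * inner ℝ a b)) 0 := by
  have h1 : HasDerivAt (fun t : ℝ => a + t • b) b 0 := by
    have := ((hasDerivAt_id (0 : ℝ)).smul_const b).const_add a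
    simpa using this
  have h0 : a + (0 : ℝ) • b = a := by simp
  have h3 : HasFDerivAt (fun x : ℂ => ‖x‖ ^ r) ((r * ‖a‖ ^ (r - 2)) • innerSL ℝ a)
      (a + (0 : ℝ) • b) := by rw [h0]; exact hasFDerivAt_norm_rpow a hr
  have h2 := h3.comp_hasDerivAt 0 h1
  have h4 : ((r * ‖a‖ ^ (r - 2)) • innerSL ℝ a) b = r * (‖a‖ ^ (r - 2) * inner ℝ a b) := by
    rw [← mul_assoc]; rfl
  rw [h4] at h2
  exact h2

/-- the norming functional at `x` -/
lemma state_formula (hp : 1 < p.toReal) (x : PS p) (f : PS p →L[ℝ] ℝ) (h : IsState x f)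
    (y : PS p) :
    f y = ‖x.fst‖ ^ (p.toReal - 2) * inner ℝ x.fst y.fst +
      ‖x.snd‖ ^ (p.toReal - 2) * inner ℝ x.snd y.snd := by
  set r := p.toReal with hr
  have hr0 : 0 < r := by linarith
  have hfle : ∀ x, f x ≤ ‖x‖ := fun x => by
    have := f.le_opNorm x
    rw [h.2.1, one_mul] at this
    exact (le_abs_self _).trans this
  have d1 := deriv_line r hp x.fst y.fst
  have d2 := deriv_line r hp x.snd y.snd
  have d3 : HasDerivAt (fun t : ℝ => (1 + t * f y) ^ r) (r * f y) 0 := by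
    have e1 : HasDerivAt (fun t : ℝ => 1 + t * f y) (f y) 0 := by
      have := ((hasDerivAt_id (0 : ℝ)).mul_const (f y)).const_add 1
      simpa using this
    have e2 := e1.rpow_const (p := r) (Or.inr hp.le)
    simp only [zero_mul, add_zero, Real.one_rpow, mul_one] at e2
    rw [mul_comm] at e2
    exact e2
  have d4 := (d1.add d2).sub d3
  have hmin : IsLocalMin (fun t : ℝ => ‖x.fst + t • y.fst‖ ^ r + ‖x.snd + t • y.snd‖ ^ r -
      (1 + t * f y) ^ r) 0 := by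
    have hc : ContinuousAt (fun t : ℝ => 1 + t * f y) 0 := by fun_prop
    have hev : ∀ᶠ t in 𝓝 (0 : ℝ), 0 < 1 + t * f y :=
      hc.eventually (Ioi_mem_nhds (by simp : (0 : ℝ) < 1 + 0 * f y))
    filter_upwards [hev] with t ht
    have h0 : ‖x.fst‖ ^ r + ‖x.snd‖ ^ r = 1 := by
      rw [← norm_rpow_eq hp, h.1, Real.one_rpow]
    have h1 : (1 + t * f y) ^ r ≤ ‖x.fst + t • y.fst‖ ^ r + ‖x.snd + t • y.snd‖ ^ r := by
      have e1 : f (x + t • y) = 1 + t * f y := by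
        rw [map_add, map_smul, h.2.2, smul_eq_mul]
      have e2 := hfle (x + t • y)
      rw [e1] at e2
      have e3 := Real.rpow_le_rpow ht.le e2 hr0.le
      rw [norm_rpow_eq hp] at e3
      exact e3
    simp only [zero_smul, add_zero, zero_mul, Real.one_rpow]
    linarith
  have h5 := hmin.hasDerivAt_eq_zero d4
  have h6 : r * (f y - (‖x.fst‖ ^ (r - 2) * inner ℝ x.fst y.fst +
      ‖x.snd‖ ^ (r - 2) * inner ℝ x.snd y.snd)) = 0 := by linear_combination -h5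
  have h7 := (mul_eq_zero.mp h6).resolve_left hr0.ne'
  linarith

/-- the identification with the product -/
noncomputable abbrev Ep (p : ℝ≥0∞) [Fact (1 ≤ p)] : PS p ≃L[ℝ] ℂ × ℂ :=
  WithLp.prodContinuousLinearEquiv p ℝ ℂ ℂ

/-- the rotation `(z, w) ↦ (-w, z)` -/
noncomputable def rotOp (p : ℝ≥0∞) [Fact (1 ≤ p)] : PS p →L[ℝ] PS p :=
  ((Ep p).symm : (ℂ × ℂ) →L[ℝ] PS p).comp
    (((-ContinuousLinearMap.snd ℝ ℂ ℂ).prod (ContinuousLinearMap.fst ℝ ℂ ℂ)).comp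
      (Ep p : PS p →L[ℝ] ℂ × ℂ))

lemma rotOp_apply (x : PS p) : rotOp p x = mkp p (-x.snd) x.fst := rfl

lemma rotOp_fst (x : PS p) : (rotOp p x).fst = -x.snd := rfl

lemma rotOp_snd (x : PS p) : (rotOp p x).snd = x.fst := rfl

lemma rotOp_norm_le (hp : 1 < p.toReal) : ‖rotOp p‖ ≤ 1 := by
  have h0 : 0 < p.toReal := by linarith
  apply ContinuousLinearMap.opNorm_le_bound _ zero_le_one
  intro x
  rw [one_mul]
  have h1 : ‖rotOp p x‖ ^ p.toReal = ‖x‖ ^ p.toReal := by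
    rw [norm_rpow_eq hp, norm_rpow_eq hp, rotOp_fst, rotOp_snd, norm_neg, add_comm]
  exact ((Real.rpow_left_inj (norm_nonneg _) (norm_nonneg _) h0.ne').mp h1).le

lemma rotOp_numRadius (hp : 1 < p.toReal) (M : ℝ)
    (hM : ∀ s t : ℝ, 0 ≤ s → 0 ≤ t →
      s * t * |t ^ (p.toReal - 2) - s ^ (p.toReal - 2)| ≤ M * (s ^ p.toReal + t ^ p.toReal)) :
    numRadius (rotOp p) ≤ M := by
  have hM0 : 0 ≤ M := by
    have h := hM 1 0 zero_le_one le_rfl
    rw [Real.one_rpow, Real.one_rpow,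
      Real.zero_rpow (by linarith : (0 : ℝ) < p.toReal).ne'] at h
    simpa using h
  apply numRadius_le _ _ hM0
  intro x f h
  rw [state_formula hp x f h, rotOp_fst, rotOp_snd]
  have h1 : ‖x.fst‖ ^ (p.toReal - 2) * inner ℝ x.fst (-x.snd) +
      ‖x.snd‖ ^ (p.toReal - 2) * inner ℝ x.snd x.fst =
      inner ℝ x.fst x.snd * (‖x.snd‖ ^ (p.toReal - 2) - ‖x.fst‖ ^ (p.toReal - 2)) := by
    rw [inner_neg_right, real_inner_comm x.fst x.snd]
    ring
  rw [h1, abs_mul]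
  have h2 := hM ‖x.fst‖ ‖x.snd‖ (norm_nonneg _) (norm_nonneg _)
  rw [← norm_rpow_eq hp, h.1, Real.one_rpow, mul_one] at h2
  refine le_trans ?_ h2
  gcongr
  exact abs_real_inner_le_norm _ _

lemma exists_state (x : PS p) (hx : ‖x‖ = 1) : ∃ f : PS p →L[ℝ] ℝ, IsState x f := by
  have hx0 : x ≠ 0 := by rintro rfl; simp at hx
  obtain ⟨f, hf1, hf2⟩ := exists_dual_vector ℝ x (by rw [hx]; norm_num)
  refine ⟨f, hx, hf1, ?_⟩
  rw [hf2, hx]; simp

/-- skew-hermitian operators -/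
lemma skew_form (hp : 1 < p.toReal) (S : PS p →L[ℝ] PS p) (hS : numRadius S = 0) (x : PS p) :
    ‖x.fst‖ ^ (p.toReal - 2) * inner ℝ x.fst (S x).fst +
      ‖x.snd‖ ^ (p.toReal - 2) * inner ℝ x.snd (S x).snd = 0 := by
  by_cases hx : x = 0
  · rw [hx, map_zero]; simp
  have hn : 0 < ‖x‖ := norm_pos_iff.mpr hx
  set u : PS p := ‖x‖⁻¹ • x with hu
  have hun : ‖u‖ = 1 := by rw [hu, norm_smul, norm_inv, norm_norm, inv_mul_cancel₀ hn.ne']
  have hxu : x = ‖x‖ • u := by rw [hu, smul_smul, mul_inv_cancel₀ hn.ne', one_smul]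
  obtain ⟨f, hf⟩ := exists_state u hun
  have h1 := le_numRadius S hf
  rw [hS, state_formula hp u f hf] at h1
  have h2 := abs_nonpos_iff.mp h1
  have e1 : x.fst = ‖x‖ • u.fst := congrArg (fun v : PS p => v.fst) hxu
  have e2 : x.snd = ‖x‖ • u.snd := congrArg (fun v : PS p => v.snd) hxu
  have e3 : (S x).fst = ‖x‖ • (S u).fst := by
    conv_lhs => rw [hxu, map_smul]
    rfl
  have e4 : (S x).snd = ‖x‖ • (S u).snd := by
    conv_lhs => rw [hxu, map_smul]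
    rfl
  generalize ‖x‖ = c at *
  rw [e1, e2, e3, e4]
  rw [norm_smul, norm_smul, Real.norm_eq_abs, abs_of_pos hn,
    Real.mul_rpow hn.le (norm_nonneg _), Real.mul_rpow hn.le (norm_nonneg _),
    real_inner_smul_left, real_inner_smul_right, real_inner_smul_left, real_inner_smul_right]
  linear_combination (c ^ (p.toReal - 2) * c * c) * h2

lemma rotOp_le (hp : 1 < p.toReal) (hp2 : p.toReal ≠ 2) (S : PS p →L[ℝ] PS p)
    (hS : numRadius S = 0) : 1 ≤ ‖rotOp p + S‖ := by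
  have h0 : 0 < p.toReal := by linarith
  -- the entry `z ↦ (S (z, 0))₂` vanishes
  have hsplit : ∀ z w : ℂ, S (mkp p z w) = S (mkp p z 0) + S (mkp p 0 w) := by
    intro z w
    rw [← map_add]
    have : mkp p z 0 + mkp p 0 w = mkp p (z + 0) (0 + w) := rfl
    rw [this, add_zero, zero_add]
  have hsm : ∀ (τ : ℝ) (w : ℂ), S (mkp p 0 (τ • w)) = τ • S (mkp p 0 w) := by
    intro τ w
    rw [← map_smul]
    have : τ • mkp p 0 w = mkp p (τ • 0) (τ • w) := rfl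
    rw [this, smul_zero]
  have k1 : ∀ z : ℂ, ‖z‖ = 1 → inner ℝ z (S (mkp p z 0)).fst = 0 := by
    intro z hz
    have := skew_form hp S hS (mkp p z 0)
    change ‖z‖ ^ (p.toReal - 2) * inner ℝ z (S (mkp p z 0)).fst +
      ‖(0 : ℂ)‖ ^ (p.toReal - 2) * inner ℝ (0 : ℂ) (S (mkp p z 0)).snd = 0 at this
    rw [hz, Real.one_rpow, inner_zero_left] at this
    linarith
  have k2 : ∀ w : ℂ, ‖w‖ = 1 → inner ℝ w (S (mkp p 0 w)).snd = 0 := by
    intro w hw
    have := skew_form hp S hS (mkp p 0 w)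
    change ‖(0 : ℂ)‖ ^ (p.toReal - 2) * inner ℝ (0 : ℂ) (S (mkp p 0 w)).fst +
      ‖w‖ ^ (p.toReal - 2) * inner ℝ w (S (mkp p 0 w)).snd = 0 at this
    rw [hw, Real.one_rpow, inner_zero_left] at this
    linarith
  have k3 : ∀ (z w : ℂ) (τ : ℝ), ‖z‖ = 1 → ‖w‖ = 1 → 0 < τ →
      inner ℝ z (S (mkp p 0 w)).fst + τ ^ (p.toReal - 2) * inner ℝ w (S (mkp p z 0)).snd = 0 := by
    intro z w τ hz hw hτ
    have := skew_form hp S hS (mkp p z (τ • w))
    rw [hsplit, hsm] at this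
    change ‖z‖ ^ (p.toReal - 2) * inner ℝ z ((S (mkp p z 0)).fst + τ • (S (mkp p 0 w)).fst) +
      ‖τ • w‖ ^ (p.toReal - 2) *
        inner ℝ (τ • w) ((S (mkp p z 0)).snd + τ • (S (mkp p 0 w)).snd) = 0 at this
    rw [norm_smul, hz, hw, Real.one_rpow, Real.norm_eq_abs, abs_of_pos hτ, mul_one,
      inner_add_right, inner_add_right, real_inner_smul_right, real_inner_smul_left,
      real_inner_smul_left, real_inner_smul_right, k1 z hz, k2 w hw] at this
    have e : τ * (inner ℝ z (S (mkp p 0 w)).fst +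
        τ ^ (p.toReal - 2) * inner ℝ w (S (mkp p z 0)).snd) = 0 := by
      linear_combination this
    exact (mul_eq_zero.mp e).resolve_left hτ.ne'
  have k4 : ∀ z w : ℂ, ‖z‖ = 1 → ‖w‖ = 1 → inner ℝ w (S (mkp p z 0)).snd = 0 := by
    intro z w hz hw
    have e1 := k3 z w 1 hz hw one_pos
    have e2 := k3 z w 2 hz hw two_pos
    rw [Real.one_rpow] at e1
    have e3 : ((2 : ℝ) ^ (p.toReal - 2) - 1) * inner ℝ w (S (mkp p z 0)).snd = 0 := by
      linear_combination e2 - e1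
    have e4 : (2 : ℝ) ^ (p.toReal - 2) - 1 ≠ 0 := by
      intro h
      have h1 : (2 : ℝ) ^ (p.toReal - 2) = 1 := by linarith
      have h2 := (Real.rpow_right_inj two_pos (by norm_num)).mp (h1.trans (Real.rpow_zero 2).symm)
      exact hp2 (by linarith)
    exact (mul_eq_zero.mp e3).resolve_left e4
  have k5 : (S (mkp p 1 0)).snd = 0 := by
    have e1 := k4 1 1 (by simp) (by simp)
    have e2 := k4 1 Complex.I (by simp) (by simp)
    apply Complex.ext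
    · simpa [Complex.inner] using e1
    · simpa [Complex.inner] using e2
  have hx : ‖mkp p 1 0‖ = 1 := by
    have h1 := norm_rpow_eq hp (mkp p 1 0)
    change ‖mkp p 1 0‖ ^ p.toReal = ‖(1 : ℂ)‖ ^ p.toReal + ‖(0 : ℂ)‖ ^ p.toReal at h1
    rw [norm_one, norm_zero, Real.one_rpow, Real.zero_rpow h0.ne', add_zero] at h1
    exact (Real.rpow_left_inj (norm_nonneg _) zero_le_one h0.ne').mp
      (h1.trans (Real.one_rpow _).symm)
  have h1 := (rotOp p + S).le_opNorm (mkp p 1 0)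
  rw [hx, mul_one] at h1
  refine le_trans ?_ h1
  have h2 := norm_rpow_eq hp ((rotOp p + S) (mkp p 1 0))
  have h3 : ((rotOp p + S) (mkp p 1 0)).snd = 1 := by
    change (1 : ℂ) + (S (mkp p 1 0)).snd = 1
    rw [k5, add_zero]
  rw [h3, norm_one, Real.one_rpow] at h2
  have h4 : 1 ≤ ‖(rotOp p + S) (mkp p 1 0)‖ ^ p.toReal := by
    rw [h2]
    have : 0 ≤ ‖((rotOp p + S) (mkp p 1 0)).fst‖ ^ p.toReal := by positivity
    linarith
  by_contra hlt
  push Not at hlt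
  have := Real.rpow_lt_one (norm_nonneg _) hlt h0
  linarith

lemma rotOp_quotNorm (hp : 1 < p.toReal) (hp2 : p.toReal ≠ 2) : quotNorm (rotOp p) = 1 := by
  apply le_antisymm
  · have := quotNorm_le (rotOp p) 0 numRadius_zero
    rw [add_zero] at this
    exact this.trans (rotOp_norm_le hp)
  · exact le_quotNorm _ _ (rotOp_le hp hp2)

/-- `M_r = sup {|t^(r-1) - t| / (1 + t^r) : 0 ≤ t ≤ 1}` -/
noncomputable def bigM (r : ℝ) : ℝ :=
  sSup {m : ℝ | ∃ t : ℝ, 0 ≤ t ∧ t ≤ 1 ∧ m = |t ^ (r - 1) - t| / (1 + t ^ r)}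

lemma bigM_bdd (r : ℝ) (hr : 1 < r) :
    BddAbove {m : ℝ | ∃ t : ℝ, 0 ≤ t ∧ t ≤ 1 ∧ m = |t ^ (r - 1) - t| / (1 + t ^ r)} := by
  refine ⟨1, ?_⟩
  rintro m ⟨t, h0, h1, rfl⟩
  have e1 : t ^ (r - 1) ≤ 1 := Real.rpow_le_one h0 h1 (by linarith)
  have e2 : 0 ≤ t ^ (r - 1) := Real.rpow_nonneg h0 _
  have e3 : 0 ≤ t ^ r := Real.rpow_nonneg h0 _
  rw [div_le_one (by linarith)]
  have e4 : |t ^ (r - 1) - t| ≤ 1 := by rw [abs_le]; constructor <;> linarith
  linarith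

lemma bigM_pos_case (r : ℝ) (hr : 1 < r) (s t : ℝ) (hs : 0 < s) (ht : 0 < t) (hts : t ≤ s) :
    s * t * |t ^ (r - 2) - s ^ (r - 2)| ≤ bigM r * (s ^ r + t ^ r) := by
  set τ := t / s with hτ
  have hτ0 : 0 < τ := by positivity
  have hτ1 : τ ≤ 1 := by rw [hτ]; exact (div_le_one hs).mpr hts
  have h1 : |τ ^ (r - 1) - τ| / (1 + τ ^ r) ≤ bigM r :=
    le_csSup (bigM_bdd r hr) ⟨τ, hτ0.le, hτ1, rfl⟩
  have h2 : 0 < 1 + τ ^ r := by positivity
  rw [div_le_iff₀ h2] at h1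
  have ht' : t = s * τ := by rw [hτ]; field_simp
  have h3 : t ^ (r - 2) = s ^ (r - 2) * τ ^ (r - 2) := by
    rw [ht', Real.mul_rpow hs.le hτ0.le]
  have h4 : t ^ r = s ^ r * τ ^ r := by
    rw [ht', Real.mul_rpow hs.le hτ0.le]
  have h5 : s ^ r = s ^ (r - 2) * s * s := by
    rw [mul_assoc, ← pow_two, ← Real.rpow_natCast s 2, ← Real.rpow_add hs]
    congr 1; push_cast; ring
  have h6 : τ ^ (r - 1) = τ ^ (r - 2) * τ := by
    have := Real.rpow_add hτ0 (r - 2) 1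
    rw [Real.rpow_one] at this
    rw [← this]; congr 1; ring
  have h7 : s * t * |t ^ (r - 2) - s ^ (r - 2)| = s ^ r * |τ ^ (r - 1) - τ| := by
    have e1 : t ^ (r - 2) - s ^ (r - 2) = s ^ (r - 2) * (τ ^ (r - 2) - 1) := by rw [h3]; ring
    have e2 : τ ^ (r - 1) - τ = τ * (τ ^ (r - 2) - 1) := by rw [h6]; ring
    rw [e1, e2, abs_mul, abs_mul, abs_of_pos hτ0, abs_of_pos (by positivity : 0 < s ^ (r - 2)), h5]
    rw [ht']; ring
  rw [h7, h4]
  have h8 : 0 < s ^ r := by positivity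
  nlinarith

lemma bigM_nonneg (r : ℝ) : 0 ≤ bigM r := by
  apply Real.sSup_nonneg
  rintro m ⟨t, h0, h1, rfl⟩
  have : 0 ≤ t ^ r := Real.rpow_nonneg h0 _
  positivity

lemma bigM_ineq (r : ℝ) (hr : 1 < r) (s t : ℝ) (hs : 0 ≤ s) (ht : 0 ≤ t) :
    s * t * |t ^ (r - 2) - s ^ (r - 2)| ≤ bigM r * (s ^ r + t ^ r) := by
  have h0 : 0 ≤ bigM r * (s ^ r + t ^ r) :=
    mul_nonneg (bigM_nonneg r) (add_nonneg (Real.rpow_nonneg hs _) (Real.rpow_nonneg ht _))
  rcases hs.eq_or_lt with rfl | hs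
  · simpa using h0
  rcases ht.eq_or_lt with rfl | ht
  · simpa using h0
  rcases le_total t s with h | h
  · exact bigM_pos_case r hr s t hs ht h
  · have := bigM_pos_case r hr t s ht hs h
    rw [mul_comm t s, abs_sub_comm, add_comm] at this
    exact this

theorem secondIndex_le_of (hp : 1 < p.toReal) (hp2 : p.toReal ≠ 2) (M : ℝ)
    (hM : ∀ s t : ℝ, 0 ≤ s → 0 ≤ t →
      s * t * |t ^ (p.toReal - 2) - s ^ (p.toReal - 2)| ≤ M * (s ^ p.toReal + t ^ p.toReal)) :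
    secondIndex (WithLp p (ℂ × ℂ)) ≤ M := by
  have hbdd : BddBelow {r : ℝ | ∃ T : PS p →L[ℝ] PS p, quotNorm T = 1 ∧ r = numRadius T} := by
    refine ⟨0, ?_⟩
    rintro r ⟨T, _, rfl⟩
    exact numRadius_nonneg T
  exact (csInf_le hbdd ⟨rotOp p, rotOp_quotNorm hp hp2, rfl⟩).trans (rotOp_numRadius hp M hM)

lemma pow_diff_le (t a d : ℝ) (ht : 0 < t) (ht1 : t ≤ 1) (ha : 0 < a) (hd : 0 ≤ d) :
    t ^ a - t ^ (a + d) ≤ d / a ∧ 0 ≤ t ^ a - t ^ (a + d) := by
  have h1 : t ^ (a + d) = t ^ a * t ^ d := Real.rpow_add ht _ _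
  have h2 : 0 < t ^ a := Real.rpow_pos_of_pos ht _
  have h3 : t ^ d ≤ 1 := Real.rpow_le_one ht.le ht1 hd
  have h4 : 1 + d * Real.log t ≤ t ^ d := by
    rw [Real.rpow_def_of_pos ht, mul_comm d]
    have := Real.add_one_le_exp (Real.log t * d)
    linarith
  have h5 := Real.abs_log_mul_self_rpow_lt t a ht ht1 ha
  have h6 : -(Real.log t * t ^ a) ≤ 1 / a := (neg_le_abs _).trans h5.le
  constructor
  · rw [h1]
    have h7 : d * (-(Real.log t * t ^ a)) ≤ d * (1 / a) := mul_le_mul_of_nonneg_left h6 hd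
    have h8 : d * (1 / a) = d / a := by ring
    rw [h8] at h7
    nlinarith
  · rw [h1]; nlinarith

lemma bigM_le (r : ℝ) (hr : 1 < r) : bigM r ≤ |r - 2| / min 1 (r - 1) := by
  have hmin : 0 < min 1 (r - 1) := lt_min one_pos (by linarith)
  have h00 : 0 ≤ |r - 2| / min 1 (r - 1) := by positivity
  apply Real.sSup_le _ h00
  rintro m ⟨t, h0, h1, rfl⟩
  rcases h0.eq_or_lt with rfl | h0
  · rw [Real.zero_rpow (by linarith : (0 : ℝ) < r - 1).ne']
    simpa using h00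
  have h3 : 0 ≤ t ^ r := Real.rpow_nonneg h0.le _
  have h4 : |t ^ (r - 1) - t| / (1 + t ^ r) ≤ |t ^ (r - 1) - t| :=
    div_le_self (abs_nonneg _) (by linarith)
  refine h4.trans ?_
  rcases le_total r 2 with h | h
  · have e := pow_diff_le t (r - 1) (2 - r) h0 h1 (by linarith) (by linarith)
    have e2 : r - 1 + (2 - r) = 1 := by ring
    rw [e2, Real.rpow_one] at e
    rw [min_eq_right (by linarith), abs_of_nonneg e.2, abs_sub_comm, abs_of_nonneg (by linarith)]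
    exact e.1
  · have e := pow_diff_le t 1 (r - 2) h0 h1 one_pos (by linarith)
    have e2 : 1 + (r - 2) = r - 1 := by ring
    rw [e2, Real.rpow_one] at e
    rw [min_eq_left (by linarith), abs_sub_comm, abs_of_nonneg e.2, abs_of_nonneg (by linarith)]
    exact e.1

theorem secondIndex_le_bigM (hp : 1 < p.toReal) (hp2 : p.toReal ≠ 2) :
    secondIndex (WithLp p (ℂ × ℂ)) ≤ bigM p.toReal :=
  secondIndex_le_of hp hp2 _ (bigM_ineq _ hp)

end Pool.Agent.H121.SNI
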